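import Mathlib
import Pool.Agent.PudOr.A1
import Pool.Agent.PudOr.A2
import Pool.Agent.PudOr.A3
import Pool.Agent.Helper49.Cons.Bind
import Pool.Agent.Helper20.Cons.Defs

set_option autoImplicit false

/-!
# Oracles that answer all tally NP questions about themselves

`hat act G` contains the free set `G` and, for each question
`∃ w, |w| ≤ N ∧ (the procedure number e accepts (un n, w) relative to Xo act (hat act G))`,
the word `tw e n N` if the answer is yes.
-/

namespace Pool.Agent.PudTal

open N68a2faeb N793a5b8e N487b59b3 Pool.Agent.Helper22 Pool.Agent.PudOr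
open scoped Classical

/-- verifiers -/
abbrev VP : Type := OracleProc (List Bool × List Bool) Bool
/-- functions -/
abbrev FN : Type := OracleProc (List Bool) (List Bool)

theorem exists_enumV : ∃ f : ℕ → VP, Function.Surjective f := exists_surjective_nat _
theorem exists_enumF : ∃ f : ℕ → FN, Function.Surjective f := exists_surjective_nat _

/-- enumeration of the verifiers -/
noncomputable def enumV : ℕ → VP := exists_enumV.choose
theorem enumV_surj : Function.Surjective enumV := exists_enumV.choose_spec
/-- enumeration of the functions -/
noncomputable def enumF : ℕ → FN := exists_enumF.choose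
theorem enumF_surj : Function.Surjective enumF := exists_enumF.choose_spec

/-- the word for a tally question -/
def tw (e n N : ℕ) : List Bool := true :: cd (un e) (cd (un n) (un N))

/-- the answer to the tally question -/
def TB (act : Act) (e n N : ℕ) (C : Oracle) : Prop :=
  ∃ w : List Bool, w.length ≤ N ∧ QB (enumV e) (un n, w) N ∧
    (enumV e).run (Xo act C) (un n, w) = true

/-- `C` consists of `G` and of the answers to the tally questions about `Xo act C` -/
structure Hat (act : Act) (G C : Oracle) : Prop where
  nil : C [] = false
  gen : ∀ q, C (false :: q) = G q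
  tal : ∀ e n N, C (tw e n N) = true ↔ TB act e n N C
  oth : ∀ q, (∀ e n N, true :: q ≠ tw e n N) → C (true :: q) = false

/-- the set with `Hat act G (hat act G)` -/
noncomputable def hat (act : Act) (G : Oracle) : Oracle :=
  if h : ∃ C, Hat act G C then h.choose else fun _ => false

/-! ## Conditions -/

/-- at the scale `j`, exactly one of the words `x` with `true` and `x` with `false` is present -/
def Full (G : Oracle) (j : ℕ) (x : List Bool) : Prop :=
  (∃ y : List Bool, y.length = sc j ∧ G (true :: (x ++ y)) = true) ↔
    ¬ ∃ y : List Bool, y.length = sc j ∧ G (false :: (x ++ y)) = true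

/-- compatibility of `G` with the condition `p` -/
def Comp (p : Cond) (G : Oracle) : Prop :=
  (∀ q : List Bool, q.length < sc p.J → (G q = true ↔ q ∈ p.pos)) ∧
  ∀ j, p.J ≤ j → fam j < p.m → ∀ x : List Bool, x.length = sc j → Full G j x

/-- generic sets -/
structure Gen {ι : Type} (P : ι → List Bool → Oracle → Prop) (G : Oracle) where
  p : ℕ → Cond
  comp : ∀ k, Comp (p k) G
  anti : ∀ k G', Comp (p (k + 1)) G' → Comp (p k) G'
  J_mono : ∀ k, (p k).J ≤ (p (k + 1)).J
  m_le : ∀ k, k ≤ (p k).m
  force : ∀ i, (∀ x, P i x G) → ∃ k, ∀ G', Comp (p k) G' → ∀ x, P i x G'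

/-! ## The languages -/

/-- the language of family `i`, from scale `J₀` on -/
noncomputable def tl (i J₀ : ℕ) (G : Oracle) : DecisionProblem := fun x =>
  decide (∃ j, J₀ ≤ j ∧ fam j = i ∧ x.length = sc j ∧
    ∃ y : List Bool, y.length = sc j ∧ G (true :: (x ++ y)) = true)

/-- verifier of the language `tl i J₀` (`b = true`) and of its complement (`b = false`) -/
noncomputable def thT (i J₀ : ℕ) (b : Bool) (_ : Act) (v : List Bool) :
    Strat × (Oracle → Bool) :=
  (fun _ => if 2 ≤ (cf v).length ∧ (cs v).length = (cf v).length then
      .inr (false :: b :: (cf v ++ cs v)) else .inl false,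
   fun C => if (∃ j, J₀ ≤ j ∧ fam j = i ∧ (cf v).length = sc j) then
      decide ((cs v).length = (cf v).length) && C (false :: b :: (cf v ++ cs v)) else !b)

/-- the reader -/
noncomputable def thRead (_ : Act) (v : List Bool) : Strat × (Oracle → Bool) :=
  (fun _ => .inr v, fun C => if v = [] then false else C v)

/-- the witness `w` shows that `z = ((un e, x), t)` is in the complete language of NP -/
def KcP (act : Act) (z w : List Bool) (C : Oracle) : Prop :=
  w.length ≤ z.length ∧ QB (enumV (cf (cf z)).length) (cs (cf z), w) z.length ∧
    (enumV (cf (cf z)).length).run (Xo act C) (cs (cf z), w) = true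

/-- the complete language of NP -/
noncomputable def Kc (act : Act) (C : Oracle) : DecisionProblem := fun z =>
  decide (∃ w, KcP act z w C)

/-- verifier of the complete language, on `v = (z, w)` -/
noncomputable def thK (act : Act) (v : List Bool) : Strat × (Oracle → Bool) :=
  (simStrat act (enumV (cf (cf (cf v))).length) (cs (cf (cf v)), cs v),
    fun C => decide (KcP act (cf v) (cs v) C))

/-- if `y` is the value of the function number `e` at `w` and is in the complete language, then
the tally question `e' 0 N` has the answer yes -/
def Cert (act : Act) (y : List Bool) (e : ℕ) (w : List Bool) (e' N : ℕ) : Prop :=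
  ∀ C', (enumF e).run (Xo act C') w = y → (∃ u, KcP act y u C') → TB act e' 0 N C'

/-- what the p-optimal proof system checks on `v = (y, (((un e, un e'), w), t))` -/
def ChkP (act : Act) (v : List Bool) (C : Oracle) : Prop :=
  let y := cf v
  let e := (cf (cf (cf (cs v)))).length
  let e' := (cs (cf (cf (cs v)))).length
  let w := cs (cf (cs v))
  let N := (cs (cs v)).length
  QB (enumF e) w N ∧ Cert act y e w e' N ∧ (enumF e).run (Xo act C) w = y ∧
    C (tw e' 0 N) = false

/-- the functional of the p-optimal proof system, on `u = (v, padding)` -/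
noncomputable def thC (act : Act) (u : List Bool) : Strat × (Oracle → Bool) :=
  let v := cf u
  let e := (cf (cf (cf (cs v)))).length
  let e' := (cs (cf (cf (cs v)))).length
  let w := cs (cf (cs v))
  let N := (cs (cs v)).length
  (fun ans => if ans.length < N then act ((enumF e).query (w, ans)) else .inr (tw e' 0 N),
   fun C => decide (ChkP act v C))

/-! ## Proof systems relative to an oracle -/

/-- `f` is a proof system for `K` relative to `X`. -/
def IsProofSystemRel (X : Oracle) (K : DecisionProblem) (f : FN) : Prop :=
  ∀ y, K y = true ↔ ∃ w, f.run X w = y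

/-- `f` is a p-optimal proof system for `K` relative to `X`. -/
def IsPOptimalRel (X : Oracle) (K : DecisionProblem) (f : FN) : Prop :=
  IsProofSystemRel X K f ∧
    ∀ g, IsProofSystemRel X K g → ∃ k : FN, ∀ w, f.run X (k.run X w) = g.run X w

/-! ## The local statements -/

/-- `e` presents a language of NP ∩ coNP, at `x` -/
def PGood (act : Act) (e : Ver × Ver) (x : List Bool) (G : Oracle) : Prop :=
  Acc act e.1 x (hat act G) ↔ ¬ Acc act e.2 x (hat act G)

/-- `f` reduces `tl i J₀` to the language presented by `e`, at `x` -/
def PRed (act : Act) (f : FN) (i J₀ : ℕ) (e : Ver × Ver) (x : List Bool) (G : Oracle) : Prop :=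
  (tl i J₀ G x = true → Acc act e.1 (f.run (Xo act (hat act G)) x) (hat act G)) ∧
  (tl i J₀ G x = false → Acc act e.2 (f.run (Xo act (hat act G)) x) (hat act G))

end Pool.Agent.PudTal
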