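import Mathlib
import Pool.Agent.PudTal.Defs

set_option autoImplicit false

/-!
# T3: the reader and the complete language of NP
-/

namespace Pool.Agent.PudTal

open N68a2faeb N793a5b8e N487b59b3 Pool.Agent.Helper22 Pool.Agent.PudOr
open scoped Classical

theorem read_run {act : Act} {D : OracleProc (List Bool) Bool} (hD : Drives act D thRead)
    (C : Oracle) (hC : C [] = false) (q : List Bool) : D.run (Xo act C) q = C q := by
  have h := hD C q (by
    intro ans q' h
    simp only [thRead, Sum.inr.injEq] at h
    rw [← h]) (by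
    intro C' h
    by_cases hq : q = []
    · simp only [thRead, if_pos hq]
    · obtain ⟨n, hn⟩ : ∃ n, q.length = n + 1 := by
        refine ⟨q.length - 1, ?_⟩
        have := List.length_pos_of_ne_nil hq
        omega
      rw [hn] at h
      simp only [thRead, sAns, look, List.cons.injEq] at h
      simp only [thRead, if_neg hq]
      exact h.1)
  rw [h]
  by_cases hq : q = []
  · simp only [thRead, if_pos hq]
    rw [hq, hC]
  · simp only [thRead, if_neg hq]

theorem T3_thK (act : Act) (z w : List Bool) :
    thK act (cd z w) = (simStrat act (enumV (cf (cf z)).length) (cs (cf z), w),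
      fun C => decide (KcP act z w C)) := by
  simp only [thK, cf_cd, cs_cd]

theorem T3_KcP_trunc (act : Act) (C : Oracle) (z w : List Bool) {N : ℕ} (hN : z.length ≤ N) :
    KcP (trunc act N) z w C ↔ KcP act z w C := by
  unfold KcP
  constructor
  · rintro ⟨h1, h2, h3⟩
    refine ⟨h1, h2, ?_⟩
    rw [run_trunc act _ (h2.mono hN)] at h3
    exact h3
  · rintro ⟨h1, h2, h3⟩
    refine ⟨h1, h2, ?_⟩
    rw [run_trunc act _ (h2.mono hN)]
    exact h3

theorem K_run {act : Act} (hs : Short act) {D : OracleProc (List Bool) Bool}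
    (hD : Drives act D thK) (C : Oracle) (z w : List Bool) :
    D.run (Xo act C) (cd z w) = true ↔ KcP act z w C := by
  have hlen : (cd z w).length = 2 * z.length + 1 + w.length := cd_length z w
  set N := (cd z w).length with hN
  have hz : z.length ≤ N := by omega
  have h := hD C (cd z w) (by
    intro ans q h
    rw [← hN, T3_thK] at h
    simp only [simStrat, trunc] at h
    split_ifs at h with h1
    rw [← hN]
    exact (hs _ _ h).trans h1.le) (by
    intro C' h
    rw [← hN, T3_thK] at h ⊢
    simp only [sAns_sim] at h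
    simp only
    by_cases h2 : QB (enumV (cf (cf z)).length) (cs (cf z), w) z.length
    · have h3 := (used_of_answers (trunc act N) _ (h2.1.trans hz) h).2.2
      unfold KcP
      rw [h3]
    · have h4 : ∀ X, ¬ KcP (trunc act N) z w X := fun X hX => h2 hX.2.1
      rw [decide_eq_false (h4 C'), decide_eq_false (h4 C)])
  rw [h, ← hN, T3_thK]
  simp only [decide_eq_true_eq]
  exact T3_KcP_trunc act C z w hz

theorem Kc_NP {act : Act} (hs : Short act) {D : OracleProc (List Bool) Bool}
    (hD : Drives act D thK) (C : Oracle) : Kc act C ∈ NPo (Xo act C) := by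
  have hg : FP fun a : List Bool × List Bool => cd a.1 a.2 := FP.cd FP.fst FP.snd
  have hrun : ∀ z y : List Bool, (comap D (fun a => cd a.1 a.2) hg).run (Xo act C) (z, y) = true ↔
      KcP act z y C := by
    intro z y
    rw [comap_run]
    exact K_run hs hD C z y
  refine ⟨Polynomial.X, comap D (fun a => cd a.1 a.2) hg, fun z => ?_⟩
  simp only [Kc, decide_eq_true_eq, Accepts, Polynomial.eval_X, hrun]
  constructor
  · rintro ⟨w, hw⟩
    exact ⟨w, hw.1, hw⟩
  · rintro ⟨w, _, hw⟩
    exact ⟨w, hw⟩

/-- the verifier that also checks the length of the witness -/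
theorem T3_exists_bounded (p : Polynomial ℕ) (M : OracleProc (List Bool × List Bool) Bool) :
    ∃ K : VP, ∀ X x w, K.run X (x, w) = true ↔ (w.length ≤ p.eval x.length ∧
      M.run X (x, w) = true) := by
  have h4 : FP fun a : (List Bool × List Bool) × Bool =>
      decide (a.1.2.length ≤ (un (p.eval a.1.1.length)).length) && a.2 := by
    have h1 : FP fun a : (List Bool × List Bool) × Bool => un (p.eval a.1.1.length) :=
      FP.un_poly (by fun_prop) _
    have h2 : FP fun a : (List Bool × List Bool) × Bool =>
        decide (a.1.2.length ≤ (un (p.eval a.1.1.length)).length) := by fun_prop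
    exact h2.and FP.snd
  obtain ⟨K, hK⟩ := Pool.Agent.Helper49.Cons.exists_post M (fun a : (List Bool × List Bool) × Bool =>
      decide (a.1.2.length ≤ (un (p.eval a.1.1.length)).length) && a.2) h4
  refine ⟨K, fun X x w => ?_⟩
  rw [hK]
  simp only [un_length, Bool.and_eq_true, decide_eq_true_eq]

theorem Kc_hard (act : Act) (C : Oracle) :
    ∀ A ∈ NPo (Xo act C), ReducibleRel (Xo act C) A (Kc act C) := by
  rintro A ⟨p, M, hA⟩
  obtain ⟨K, hK⟩ := T3_exists_bounded p M
  obtain ⟨e, he⟩ := enumV_surj K
  obtain ⟨q, hq⟩ := QB_ver (K, p)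
  have hf : FP fun x : List Bool => cd (cd (un e) x) (un (q.eval x.length)) :=
    FP.cd (FP.cd (FP.const _) FP.id) (FP.un_poly FP.id q)
  refine ⟨pureProc (fun x => cd (cd (un e) x) (un (q.eval x.length))) hf, fun x => ?_⟩
  rw [pureProc_run]
  set z := cd (cd (un e) x) (un (q.eval x.length)) with hz
  have e1 : (cf (cf z)).length = e := by rw [hz, cf_cd, cf_cd, un_length]
  have e2 : cs (cf z) = x := by rw [hz, cf_cd, cs_cd]
  have hzl : q.eval x.length ≤ z.length := by
    rw [hz, cd_length, un_length]
    omega
  have hQ := hq x z.length hzl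
  rw [Bool.eq_iff_iff, hA]
  simp only [Kc, decide_eq_true_eq, KcP, e1, e2, he, hK]
  constructor
  · rintro ⟨w, hw, hr⟩
    have h1 := hQ w hw
    exact ⟨w, h1.1, h1.2, hw, hr⟩
  · rintro ⟨w, _, _, hw, hr⟩
    exact ⟨w, hw, hr⟩

theorem Kc_nil (act : Act) (C : Oracle) : Kc act C [] = false := by
  simp only [Kc, decide_eq_false_iff_not]
  rintro ⟨w, _, hQ, _⟩
  have h := hQ.2 [] (by simp)
  simp only [List.length_nil] at h
  omega

end Pool.Agent.PudTal
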