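import Mathlib
import Pool.Agent.PudTal.T3

set_option autoImplicit false

/-!
# T4: the p-optimal proof system
-/

namespace Pool.Agent.PudTal

open N68a2faeb N793a5b8e N487b59b3 Pool.Agent.Helper22 Pool.Agent.PudOr
open scoped Classical

theorem T4_cfs_length_le (s : List Bool) : (cf s).length + (cs s).length ≤ s.length := by
  induction s using cf.induct with
  | case1 b l ih => simp only [cf, cs, List.length_cons]; omega
  | case2 s h =>
    rcases s with _ | ⟨a, _ | ⟨b, l⟩⟩
    · simp [cf, cs]
    · cases a <;> simp [cf, cs]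
    · cases a
      · simp [cf, cs]
      · exact absurd rfl (h b l)

theorem T4_tw_length (e n N : ℕ) : (tw e n N).length = 2 * e + 2 * n + N + 3 := by
  simp only [tw, List.length_cons, cd_length, un_length]
  ring

theorem T4_KcP_trunc (act : Act) (z w : List Bool) (C : Oracle) {M : ℕ} (h : z.length ≤ M) :
    KcP (trunc act M) z w C ↔ KcP act z w C := by
  unfold KcP
  constructor
  · rintro ⟨h1, h2, h3⟩
    refine ⟨h1, h2, ?_⟩
    rw [run_trunc act _ (h2.mono h)] at h3
    exact h3
  · rintro ⟨h1, h2, h3⟩
    refine ⟨h1, h2, ?_⟩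
    rw [run_trunc act _ (h2.mono h)]
    exact h3

theorem T4_TB_trunc (act : Act) (e n N : ℕ) (C : Oracle) {M : ℕ} (h : N ≤ M) :
    TB (trunc act M) e n N C ↔ TB act e n N C := by
  unfold TB
  constructor
  · rintro ⟨w, h1, h2, h3⟩
    refine ⟨w, h1, h2, ?_⟩
    rw [run_trunc act _ (h2.mono h)] at h3
    exact h3
  · rintro ⟨w, h1, h2, h3⟩
    refine ⟨w, h1, h2, ?_⟩
    rw [run_trunc act _ (h2.mono h)]
    exact h3

theorem T4_Cert_trunc (act : Act) (y : List Bool) (e : ℕ) (w : List Bool) (e' N : ℕ) {M : ℕ}
    (hQ : QB (enumF e) w N) (hy : y.length ≤ M) (hN : N ≤ M) :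
    Cert (trunc act M) y e w e' N ↔ Cert act y e w e' N := by
  unfold Cert
  refine forall_congr' fun C' => ?_
  rw [run_trunc act _ (hQ.mono hN), T4_TB_trunc act e' 0 N C' hN]
  refine imp_congr_right fun _ => ?_
  refine imp_congr_left ?_
  exact exists_congr fun u => T4_KcP_trunc act y u C' hy

theorem T4_ChkP_trunc (act : Act) (v : List Bool) (C : Oracle) {M : ℕ} (h : v.length ≤ M) :
    ChkP (trunc act M) v C ↔ ChkP act v C := by
  have h1 := T4_cfs_length_le v
  have h2 := T4_cfs_length_le (cs v)
  have hy : (cf v).length ≤ M := by omega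
  have hN : (cs (cs v)).length ≤ M := by omega
  unfold ChkP
  simp only
  constructor
  · rintro ⟨a1, a2, a3, a4⟩
    refine ⟨a1, (T4_Cert_trunc act _ _ _ _ _ a1 hy hN).1 a2, ?_, a4⟩
    rw [run_trunc act _ (a1.mono hN)] at a3
    exact a3
  · rintro ⟨a1, a2, a3, a4⟩
    refine ⟨a1, (T4_Cert_trunc act _ _ _ _ _ a1 hy hN).2 a2, ?_, a4⟩
    rw [run_trunc act _ (a1.mono hN)]
    exact a3

theorem T4_sAns_length (σ : Strat) (C : Oracle) (n : ℕ) : (sAns σ C n).length = n := by
  induction n with
  | zero => rfl
  | succ n ih => rw [sAns, List.length_cons, ih]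

theorem T4_sAns_drop (σ : Strat) (C : Oracle) (m k : ℕ) :
    (sAns σ C (m + k)).drop k = sAns σ C m := by
  induction k with
  | zero => rfl
  | succ k ih => rw [← add_assoc, sAns, List.drop_succ_cons, ih]

theorem T4_sAns_le (σ : Strat) {C C' : Oracle} {n m : ℕ} (hm : m ≤ n)
    (h : sAns σ C n = sAns σ C' n) : sAns σ C m = sAns σ C' m := by
  obtain ⟨k, rfl⟩ := Nat.exists_eq_add_of_le hm
  rw [← T4_sAns_drop σ C m k, ← T4_sAns_drop σ C' m k, h]

/-- as long as the strategy follows the procedure, the answers are those of the procedure -/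
theorem T4_sAns_answers (act : Act) {β : Type} [N487b59b3 β] (f : OracleProc (List Bool) β)
    (w : List Bool) (N : ℕ) (q : List Bool) (C : Oracle) {n : ℕ} (hn : n ≤ N) :
    sAns (fun ans => if ans.length < N then act (f.query (w, ans)) else .inr q) C n =
      f.answers (Xo act C) w n := by
  induction n with
  | zero => rfl
  | succ n ih =>
    rw [sAns, OracleProc.answers, ih (by omega)]
    simp only [OracleProc.answers_length]
    rw [if_pos (by omega)]
    rfl

theorem chk_run {act : Act} (hs : Short act) {D : OracleProc (List Bool) Bool}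
    (hD : Drives act D thC) (C : Oracle) (v : List Bool) :
    D.run (Xo act C) (cd v (un (8 * (v.length + 1)))) = true ↔ ChkP act v C := by
  set u := cd v (un (8 * (v.length + 1))) with hu
  have hul : u.length = 2 * v.length + 1 + 8 * (v.length + 1) := by
    rw [hu, cd_length, un_length]
  have hcf : cf u = v := by rw [hu, cf_cd]
  have l1 := T4_cfs_length_le v
  have l2 := T4_cfs_length_le (cs v)
  have l3 := T4_cfs_length_le (cf (cs v))
  have l4 := T4_cfs_length_le (cf (cf (cs v)))
  have hth : ∀ act' : Act, thC act' u =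
      (fun ans => if ans.length < (cs (cs v)).length then
          act' ((enumF (cf (cf (cf (cs v)))).length).query (cs (cf (cs v)), ans))
        else .inr (tw (cs (cf (cf (cs v)))).length 0 (cs (cs v)).length),
        fun C => decide (ChkP act' v C)) := by
    intro act'
    simp only [thC, hcf]
  have h := hD C u (by
    intro ans q h
    rw [hth] at h
    simp only at h
    split_ifs at h with h1
    · simp only [trunc] at h
      split_ifs at h with h2
      exact (hs _ _ h).trans h2.le
    · simp only [Sum.inr.injEq] at h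
      subst h
      rw [T4_tw_length]
      omega) (by
    intro C' h
    rw [hth] at h ⊢
    simp only at h ⊢
    have hNu : (cs (cs v)).length + 1 ≤ u.length := by omega
    have e1 := T4_sAns_le _ (show (cs (cs v)).length ≤ u.length by omega) h
    rw [T4_sAns_answers _ _ _ _ _ _ le_rfl, T4_sAns_answers _ _ _ _ _ _ le_rfl] at e1
    have e2 := T4_sAns_le _ hNu h
    rw [sAns, sAns, List.cons.injEq] at e2
    have e3 := e2.1
    simp only [T4_sAns_length, lt_irrefl, if_false, look] at e3
    refine decide_eq_decide.2 ?_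
    unfold ChkP
    simp only
    rw [e3]
    refine and_congr_right fun hQ => ?_
    rw [(used_of_answers _ _ hQ.1 e1).2.2])
  rw [h, hth]
  simp only [decide_eq_true_eq]
  exact T4_ChkP_trunc act v C (by omega)

/-- the checking procedure -/
theorem T4_exists_h (D : OracleProc (List Bool) Bool) : ∃ h : FN, ∀ X v,
    h.run X v = if D.run X (cd v (un (8 * (v.length + 1)))) = true then cf v else [] := by
  have hg : FP fun v : List Bool => cd v (un (8 * (v.length + 1))) := by
    have h1 : FP fun v : List Bool =>
        cd v (un ((8 * (Polynomial.X + 1) : Polynomial ℕ).eval v.length)) :=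
      FP.cd FP.id (FP.un_poly FP.id _)
    refine (congrArg FP (funext fun v => ?_)).mp h1
    simp
  obtain ⟨h, hh⟩ := Pool.Agent.Helper49.Cons.exists_post (comap D _ hg)
    (fun s : List Bool × Bool => if s.2 then cf s.1 else ([] : List Bool))
    (FP.ite FP.snd (FP.cf FP.fst) (FP.const _))
  refine ⟨h, fun X v => ?_⟩
  rw [hh, comap_run]

/-- the procedure `V` accepts `(a, w)` iff the complete language has the value of `g` at `cf w`,
with witness `cs w` -/
theorem T4_exists_V (g : FN) (D' : OracleProc (List Bool) Bool) : ∃ V : VP, ∀ X a w,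
    V.run X (a, w) = D'.run X (cd (g.run X (cf w)) (cs w)) := by
  obtain ⟨V, hV⟩ := Pool.Agent.Helper49.Cons.exists_bind
    (Pool.Agent.Helper49.Cons.pre g (fun s : List Bool × List Bool => cf s.2) (FP.cf FP.snd))
    (Pool.Agent.Helper49.Cons.pre D'
      (fun s : (List Bool × List Bool) × List Bool => cd s.2 (cs s.1.2))
      (FP.cd FP.snd (FP.cs (FP.snd.comp FP.fst))))
  refine ⟨V, fun X a w => ?_⟩
  rw [hV, Pool.Agent.Helper49.Cons.pre_run, Pool.Agent.Helper49.Cons.pre_run]

/-- simulation -/
theorem T4_sim {act : Act} (hs : Short act) {D : OracleProc (List Bool) Bool}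
    (hD : Drives act D thC) {D' : OracleProc (List Bool) Bool} (hD' : Drives act D' thK)
    {G C : Oracle} (hC : Hat act G C) {h : FN}
    (hh : ∀ X v, h.run X v = if D.run X (cd v (un (8 * (v.length + 1)))) = true then cf v else [])
    (g : FN) (hg : ∀ w, Kc act C (g.run (Xo act C) w) = false) :
    ∃ k : FN, ∀ w, h.run (Xo act C) (k.run (Xo act C) w) = g.run (Xo act C) w := by
  obtain ⟨V, hV⟩ := T4_exists_V g D'
  obtain ⟨e, he⟩ := enumF_surj g
  obtain ⟨e', he'⟩ := enumV_surj V
  obtain ⟨q1, hq1⟩ := QB_word g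
  obtain ⟨q2, hq2⟩ := QB_pair V
  obtain ⟨qo, hqo⟩ := out_bound g
  set s : Polynomial ℕ := 2 * Polynomial.X + 1 + qo with hsdef
  set r : Polynomial ℕ := q1 + s + q2.comp s with hr
  have hFP : FP fun t : List Bool × List Bool =>
      cd t.2 (cd (cd (cd (un e) (un e')) t.1) (un (r.eval t.1.length))) :=
    FP.cd FP.snd (FP.cd (FP.cd (FP.cd (FP.const _) (FP.const _)) FP.fst) (FP.un_poly FP.fst r))
  obtain ⟨k, hk⟩ := Pool.Agent.Helper49.Cons.exists_post g _ hFP
  refine ⟨k, fun w => ?_⟩
  have hse : s.eval w.length = 2 * w.length + 1 + qo.eval w.length := by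
    rw [hsdef]
    simp
  have hre : r.eval w.length = q1.eval w.length + s.eval w.length +
      q2.eval (s.eval w.length) := by
    rw [hr, Polynomial.eval_add, Polynomial.eval_add, Polynomial.eval_comp]
  set N := r.eval w.length with hN
  set y := g.run (Xo act C) w with hy
  have hQ : QB g w N := hq1 w N (by omega)
  have hcert : Cert act y e w e' N := by
    intro C' h1 ⟨u, h2⟩
    rw [he] at h1
    have h3 : u.length ≤ y.length := h2.1
    have h4 : y.length ≤ qo.eval w.length := hqo _ w
    have h5 : (cd w u).length ≤ s.eval w.length := by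
      rw [cd_length]
      omega
    refine ⟨cd w u, by omega, ?_, ?_⟩
    · rw [he']
      refine hq2 _ _ _ ?_
      have h6 : q2.eval ((un 0).length + (cd w u).length) ≤ q2.eval (s.eval w.length) :=
        poly_mono q2 (by rw [un_length]; omega)
      omega
    · rw [he', hV, cf_cd, cs_cd, h1]
      exact (K_run hs hD' C' y u).2 h2
  have htw : C (tw e' 0 N) = false := by
    by_contra hcon
    rw [Bool.not_eq_false] at hcon
    obtain ⟨w', h1, h2, h3⟩ := (hC.tal e' 0 N).1 hcon
    rw [he', hV] at h3
    have h4 := (K_run hs hD' C _ _).1 h3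
    have h5 := hg (cf w')
    have h6 : Kc act C (g.run (Xo act C) (cf w')) = true := decide_eq_true ⟨_, h4⟩
    rw [h5] at h6
    exact absurd h6 (by simp)
  have hkw : k.run (Xo act C) w = cd y (cd (cd (cd (un e) (un e')) w) (un N)) := by
    rw [hk]
  have hchk : ChkP act (k.run (Xo act C) w) C := by
    unfold ChkP
    rw [hkw]
    simp only [cf_cd, cs_cd, un_length]
    refine ⟨?_, hcert, ?_, htw⟩
    · rw [he]
      exact hQ
    · rw [he]
  rw [hh, if_pos ((chk_run hs hD C _).2 hchk), hkw, cf_cd]

theorem popt {act : Act} (hs : Short act) {D : OracleProc (List Bool) Bool}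
    (hD : Drives act D thC) {D' : OracleProc (List Bool) Bool} (hD' : Drives act D' thK)
    {G C : Oracle} (hC : Hat act G C) : ∃ h, IsPOptimalRel (Xo act C) (Kc act C)ᶜ h := by
  obtain ⟨h, hh⟩ := T4_exists_h D
  refine ⟨h, ⟨fun y => ⟨fun hy => ?_, ?_⟩, fun g hg => ?_⟩⟩
  · have hy' : Kc act C y = false := by
      simpa using hy
    obtain ⟨k, hk⟩ := T4_sim hs hD hD' hC hh (pureProc (fun _ => y) (FP.const _)) (by
      intro w
      rw [pureProc_run]
      exact hy')
    exact ⟨k.run (Xo act C) [], by rw [hk, pureProc_run]⟩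
  · rintro ⟨v, hv⟩
    rw [hh] at hv
    have hgoal : Kc act C y = false := by
      by_cases h1 : D.run (Xo act C) (cd v (un (8 * (v.length + 1)))) = true
      · rw [if_pos h1] at hv
        have h2 := (chk_run hs hD C v).1 h1
        unfold ChkP at h2
        simp only at h2
        obtain ⟨-, b2, b3, b4⟩ := h2
        by_contra hcon
        rw [Bool.not_eq_false] at hcon
        have h3 : ∃ u, KcP act y u C := of_decide_eq_true hcon
        rw [← hv] at h3
        have h4 := b2 C b3 h3
        rw [(hC.tal _ _ _).2 h4] at b4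
        exact absurd b4 (by simp)
      · rw [if_neg h1] at hv
        rw [← hv]
        exact Kc_nil act C
    simpa using hgoal
  · refine T4_sim hs hD hD' hC hh g fun w => ?_
    have h1 := (hg (g.run (Xo act C) w)).2 ⟨w, rfl⟩
    simpa using h1

end Pool.Agent.PudTal
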