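import Mathlib
import Pool.Agent.PudTal.T3

set_option autoImplicit false

/-!
# T5: tally sets in NP are in P
-/

namespace Pool.Agent.PudTal

open N68a2faeb N793a5b8e N487b59b3 Pool.Agent.Helper22 Pool.Agent.PudOr
open scoped Classical

/-- the word for a tally question is a polynomial time function of the input -/
theorem T5_tw_FP (e : ℕ) (q : Polynomial ℕ) :
    FP fun x : List Bool => tw e x.length (q.eval x.length) := by
  have h1 : FP fun x : List Bool => un x.length := FP.un_length FP.id
  have h2 : FP fun x : List Bool => un (q.eval x.length) := FP.un_poly FP.id q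
  exact (FP.const true).cons (FP.cd (FP.const (un e)) (FP.cd h1 h2))

/-- the witness bound can be built into the verifier -/
theorem T5_bounded (p : Polynomial ℕ) (M : VP) :
    ∃ M' : VP, ∀ X s, M'.run X s = (decide (s.2.length ≤ p.eval s.1.length) && M.run X s) := by
  have hg : FP fun s : (List Bool × List Bool) × Bool =>
      (decide (s.1.2.length ≤ (un (p.eval s.1.1.length)).length) && s.2) := by
    have h1 : FP fun s : (List Bool × List Bool) × Bool => s.1.2 := by fun_prop
    have h2 : FP fun s : (List Bool × List Bool) × Bool => s.1.1 := by fun_prop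
    have h3 : FP fun s : (List Bool × List Bool) × Bool => un (p.eval s.1.1.length) :=
      FP.un_poly h2 p
    exact (FP.length_le h1 h3).and FP.snd
  obtain ⟨K, hK⟩ := Pool.Agent.Helper49.Cons.exists_post M _ hg
  refine ⟨K, fun X s => ?_⟩
  rw [hK]
  simp only [un_length]

theorem tally_P {act : Act} {D : OracleProc (List Bool) Bool} (hD : Drives act D thRead)
    {G C : Oracle} (hC : Hat act G C) (A : DecisionProblem) (hA : A ∈ NPo (Xo act C))
    (hT : Pool.Agent.Helper20.Cons.Tally A) : A ∈ Pool.Agent.Helper20.Cons.Po (Xo act C) := by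
  obtain ⟨p, M, hM⟩ := hA
  obtain ⟨M', hM'⟩ := T5_bounded p M
  obtain ⟨e, he⟩ := enumV_surj M'
  obtain ⟨q, hq⟩ := QB_ver (M', p)
  -- the value on unary words
  have hun : ∀ n : ℕ, A (un n) = C (tw e n (q.eval n)) := by
    intro n
    have key : A (un n) = true ↔ C (tw e n (q.eval n)) = true := by
      rw [hM, hC.tal]
      constructor
      · rintro ⟨w, hw, hr⟩
        have h1 := hq (un n) (q.eval n) (by rw [un_length]) w hw
        refine ⟨w, h1.1, ?_, ?_⟩
        · rw [he]
          exact h1.2
        · rw [he, hM', hr, Bool.and_true, decide_eq_true_eq]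
          exact hw
      · rintro ⟨w, -, -, hr⟩
        rw [he, hM', Bool.and_eq_true, decide_eq_true_eq] at hr
        exact ⟨w, hr.1, hr.2⟩
    rcases h1 : A (un n) with _ | _ <;> rcases h2 : C (tw e n (q.eval n)) with _ | _ <;>
      simp_all
  -- the procedure
  have hg : FP fun s : List Bool × Bool => weq s.1 (un s.1.length) && s.2 := by
    have h1 : FP fun s : List Bool × Bool => un s.1.length := FP.un_length FP.fst
    exact (FP.weq FP.fst h1).and FP.snd
  obtain ⟨K, hK⟩ := Pool.Agent.Helper49.Cons.exists_post
    (comap D (fun x : List Bool => tw e x.length (q.eval x.length)) (T5_tw_FP e q)) _ hg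
  refine ⟨K, fun x => ?_⟩
  rw [hK, comap_run, read_run hD C hC.nil]
  show A x = (weq x (un x.length) && C (tw e x.length (q.eval x.length)))
  rw [← hun]
  by_cases hx : x = un x.length
  · rw [← hx, (weq_iff x x).2 rfl, Bool.true_and]
  · have h1 : weq x (un x.length) = false := by
      rw [Bool.eq_false_iff, Ne, weq_iff]
      exact hx
    have h2 : A x = false := by
      rw [Bool.eq_false_iff, Ne]
      intro h3
      refine hx ?_
      rw [un, List.eq_replicate_iff]
      exact ⟨rfl, hT x h3⟩
    rw [h1, h2, Bool.false_and]

end Pool.Agent.PudTal
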