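import Mathlib
import Pool.Agent.PudTal.Defs

set_option autoImplicit false

/-!
# T6: the languages `tl i J₀` are in NP ∩ coNP
-/

namespace Pool.Agent.PudTal

open N68a2faeb N793a5b8e N487b59b3 Pool.Agent.Helper22 Pool.Agent.PudOr
open scoped Classical

/-- the procedure `D b` computes the predicate of `thT` on pairs -/
theorem T6_run {act : Act} {i J₀ : ℕ} {b : Bool} {D : OracleProc (List Bool) Bool}
    (hD : Drives act D (thT i J₀ b)) (C : Oracle) (x w : List Bool) :
    D.run (Xo act C) (cd x w) =
      if (∃ j, J₀ ≤ j ∧ fam j = i ∧ x.length = sc j) then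
        decide (w.length = x.length) && C (false :: b :: (x ++ w)) else !b := by
  have h := hD C (cd x w) ?_ ?_
  · rw [h]
    simp only [thT, cf_cd, cs_cd]
  · intro ans q hq
    simp only [thT, cf_cd, cs_cd] at hq
    split_ifs at hq with h1
    cases hq
    rw [cd_length]
    simp only [List.length_cons, List.length_append]
    omega
  · intro C' hC'
    simp only [thT, cf_cd, cs_cd] at hC' ⊢
    by_cases hc : ∃ j, J₀ ≤ j ∧ fam j = i ∧ x.length = sc j
    · rw [if_pos hc, if_pos hc]
      by_cases hw : w.length = x.length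
      · have hx : 2 ≤ x.length := by
          obtain ⟨j, -, -, hj⟩ := hc
          have := le_sc j
          omega
        simp only [if_pos (And.intro hx hw)] at hC'
        obtain ⟨n, hn⟩ : ∃ n, (cd x w).length = n + 1 :=
          ⟨(cd x w).length - 1, by rw [cd_length]; omega⟩
        rw [hn, sAns, sAns] at hC'
        have h1 := (List.cons.inj hC').1
        simp only [look] at h1
        rw [h1]
      · have hd : decide (w.length = x.length) = false := decide_eq_false hw
        rw [hd, Bool.false_and, Bool.false_and]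
    · rw [if_neg hc, if_neg hc]

theorem tl_mem {act : Act} {i J₀ : ℕ} {D : Bool → OracleProc (List Bool) Bool}
    (hD : ∀ b, Drives act (D b) (thT i J₀ b)) {G C : Oracle} (hC : Hat act G C)
    (hG : ∀ j, J₀ ≤ j → fam j = i → ∀ x : List Bool, x.length = sc j → Full G j x) :
    tl i J₀ G ∈ NPo (Xo act C) ∩ coNPo (Xo act C) := by
  have hcd : FP fun a : List Bool × List Bool => cd a.1 a.2 := by fun_prop
  constructor
  · refine ⟨Polynomial.X, comap (D true) _ hcd, fun x => ?_⟩
    unfold Accepts
    simp only [comap_run, T6_run (hD true), Polynomial.eval_X, hC.gen]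
    constructor
    · intro h
      obtain ⟨j, hj1, hj2, hj3, y, hy, hCy⟩ := of_decide_eq_true h
      refine ⟨y, by omega, ?_⟩
      rw [if_pos ⟨j, hj1, hj2, hj3⟩, hCy, Bool.and_true, decide_eq_true_eq]
      omega
    · rintro ⟨w, hw, hw2⟩
      split_ifs at hw2 with hc
      · obtain ⟨j, hj1, hj2, hj3⟩ := hc
        rw [Bool.and_eq_true, decide_eq_true_eq] at hw2
        exact decide_eq_true ⟨j, hj1, hj2, hj3, w, by omega, hw2.2⟩
      · simp at hw2
  · change (tl i J₀ G)ᶜ ∈ NPo (Xo act C)
    refine ⟨Polynomial.X, comap (D false) _ hcd, fun x => ?_⟩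
    have hcompl : (tl i J₀ G)ᶜ x = true ↔ ¬ (tl i J₀ G x = true) := by
      change (!(tl i J₀ G x)) = true ↔ _
      cases tl i J₀ G x <;> simp
    rw [hcompl]
    unfold Accepts
    simp only [comap_run, T6_run (hD false), Polynomial.eval_X, hC.gen]
    constructor
    · intro h
      by_cases hc : ∃ j, J₀ ≤ j ∧ fam j = i ∧ x.length = sc j
      · obtain ⟨j, hj1, hj2, hj3⟩ := hc
        have hF := hG j hj1 hj2 x hj3
        by_cases hy : ∃ y : List Bool, y.length = sc j ∧ G (false :: (x ++ y)) = true
        · obtain ⟨y, hy1, hy2⟩ := hy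
          refine ⟨y, by omega, ?_⟩
          rw [if_pos ⟨j, hj1, hj2, hj3⟩, hy2, Bool.and_true, decide_eq_true_eq]
          omega
        · obtain ⟨y, hy1, hy2⟩ := hF.2 hy
          exact absurd (decide_eq_true ⟨j, hj1, hj2, hj3, y, hy1, hy2⟩) h
      · refine ⟨[], by simp, ?_⟩
        rw [if_neg hc]
        rfl
    · rintro ⟨w, hw, hw2⟩ h
      obtain ⟨j, hj1, hj2, hj3, y, hy, hCy⟩ := of_decide_eq_true h
      rw [if_pos ⟨j, hj1, hj2, hj3⟩, Bool.and_eq_true, decide_eq_true_eq] at hw2
      exact (hG j hj1 hj2 x hj3).1 ⟨y, hy, hCy⟩ ⟨w, by omega, hw2.2⟩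

end Pool.Agent.PudTal
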