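import Mathlib
import Pool.Agent.PudTal.Defs

set_option autoImplicit false

/-!
# T1: existence and locality of `hat`
-/

namespace Pool.Agent.PudTal

open N68a2faeb N793a5b8e N487b59b3 Pool.Agent.Helper22 Pool.Agent.PudOr
open scoped Classical

theorem T1_tw_inj {e n N e' n' N' : ℕ} (h : tw e n N = tw e' n' N') :
    e = e' ∧ n = n' ∧ N = N' := by
  have h0 : cd (un e) (cd (un n) (un N)) = cd (un e') (cd (un n') (un N')) :=
    (List.cons.injEq _ _ _ _).mp h |>.2
  have h1 := congrArg cf h0
  have h2 := congrArg cs h0
  rw [cf_cd, cf_cd] at h1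
  rw [cs_cd, cs_cd] at h2
  have h3 := congrArg cf h2
  have h4 := congrArg cs h2
  rw [cf_cd, cf_cd] at h3
  rw [cs_cd, cs_cd] at h4
  have k1 := congrArg List.length h1
  have k3 := congrArg List.length h3
  have k4 := congrArg List.length h4
  rw [un_length, un_length] at k1 k3 k4
  exact ⟨k1, k3, k4⟩

theorem T1_tw_length (e n N : ℕ) : (tw e n N).length = 2 * e + 2 * n + N + 3 := by
  unfold tw
  rw [List.length_cons, cd_length, cd_length, un_length, un_length, un_length]
  ring

/-- a run with queries shorter than `N` depends only on the words shorter than `N` -/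
theorem T1_run_strict {act : Act} (hs : Short act) {α β : Type} [N487b59b3 α] [N487b59b3 β]
    (M : OracleProc α β) {a : α} {N : ℕ} (h : QB M a N) {C C' : Oracle}
    (hC : ∀ q : List Bool, q.length < N → C q = C' q) :
    M.run (Xo act C) a = M.run (Xo act C') a := by
  refine run_used act M fun q hq => ?_
  obtain ⟨n, hn, hz⟩ := (mem_used act M C' a q).1 hq
  refine hC q ((hs _ _ hz).trans_lt (h.2 _ ?_))
  rw [OracleProc.answers_length]
  omega

theorem T1_TB_local {act : Act} (hs : Short act) (e n N : ℕ) {C C' : Oracle}
    (hC : ∀ q : List Bool, q.length < N → C q = C' q) : TB act e n N C ↔ TB act e n N C' := by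
  constructor
  · rintro ⟨w, h1, h2, h3⟩
    refine ⟨w, h1, h2, ?_⟩
    rw [← T1_run_strict hs (enumV e) h2 hC]
    exact h3
  · rintro ⟨w, h1, h2, h3⟩
    refine ⟨w, h1, h2, ?_⟩
    rw [T1_run_strict hs (enumV e) h2 hC]
    exact h3

/-- one step of the recursion -/
noncomputable def T1step (act : Act) (G C : Oracle) : Oracle := fun q =>
  match q with
  | [] => false
  | false :: q' => G q'
  | true :: q' => decide (∃ e n N, true :: q' = tw e n N ∧ TB act e n N C)

theorem T1step_congr {act : Act} (hs : Short act) (G : Oracle) {C C' : Oracle} (q : List Bool)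
    (h : ∀ w : List Bool, w.length < q.length → C w = C' w) :
    T1step act G C q = T1step act G C' q := by
  match q, h with
  | [], _ => rfl
  | false :: _, _ => rfl
  | true :: q', h =>
    refine decide_eq_decide.2 ?_
    have key : ∀ e n N, true :: q' = tw e n N → (TB act e n N C ↔ TB act e n N C') := by
      intro e n N he
      refine T1_TB_local hs e n N fun w hw => h w ?_
      rw [he, T1_tw_length]
      omega
    constructor
    · rintro ⟨e, n, N, h1, h2⟩
      exact ⟨e, n, N, h1, (key e n N h1).1 h2⟩
    · rintro ⟨e, n, N, h1, h2⟩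
      exact ⟨e, n, N, h1, (key e n N h1).2 h2⟩

/-- the approximations -/
noncomputable def T1seq (act : Act) (G : Oracle) : ℕ → Oracle
  | 0 => fun _ => false
  | n + 1 => T1step act G (T1seq act G n)

theorem T1seq_stable {act : Act} (hs : Short act) (G : Oracle) (n : ℕ) :
    ∀ (m : ℕ) (z : List Bool), z.length < n → z.length < m →
      T1seq act G n z = T1seq act G m z := by
  induction n with
  | zero => intro m z h; omega
  | succ n ih =>
    intro m z hn hm
    obtain ⟨m, rfl⟩ : ∃ m', m = m' + 1 := ⟨m - 1, by omega⟩
    change T1step act G (T1seq act G n) z = T1step act G (T1seq act G m) z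
    refine T1step_congr hs G z fun w hw => ih m w (by omega) (by omega)

theorem exists_hat {act : Act} (hs : Short act) (G : Oracle) : ∃ C, Hat act G C := by
  let C : Oracle := fun z => T1seq act G (z.length + 1) z
  have hC : ∀ z, C z = T1step act G C z := by
    intro z
    change T1step act G (T1seq act G z.length) z = _
    refine T1step_congr hs G z fun w hw => ?_
    exact T1seq_stable hs G _ _ w hw (Nat.lt_succ_self _)
  refine ⟨C, hC [], fun q => hC (false :: q), fun e n N => ?_, fun q hq => ?_⟩
  · rw [hC]
    have h1 : T1step act G C (tw e n N) =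
        decide (∃ e' n' N', tw e n N = tw e' n' N' ∧ TB act e' n' N' C) := rfl
    rw [h1, decide_eq_true_iff]
    constructor
    · rintro ⟨e', n', N', h2, h3⟩
      obtain ⟨rfl, rfl, rfl⟩ := T1_tw_inj h2
      exact h3
    · intro h
      exact ⟨e, n, N, rfl, h⟩
  · rw [hC]
    have h1 : T1step act G C (true :: q) =
        decide (∃ e' n' N', true :: q = tw e' n' N' ∧ TB act e' n' N' C) := rfl
    rw [h1, decide_eq_false_iff_not]
    rintro ⟨e', n', N', h2, _⟩
    exact hq e' n' N' h2

/-- `C` up to length `n` depends only on `G` up to length `n` -/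
theorem Hat.agree {act : Act} (hs : Short act) {G G' C C' : Oracle} {n : ℕ} (h : Hat act G C)
    (h' : Hat act G' C') (hG : Agree n G G') : Agree n C C' := by
  have key : ∀ k : ℕ, ∀ q : List Bool, q.length = k → q.length ≤ n → C q = C' q := by
    intro k
    induction k using Nat.strong_induction_on with
    | _ k ih =>
      intro q hk hq
      match q, hk, hq with
      | [], _, _ => rw [h.nil, h'.nil]
      | false :: q', _, hq =>
        rw [h.gen, h'.gen]
        refine hG q' ?_
        rw [List.length_cons] at hq
        omega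
      | true :: q', hk, hq =>
        by_cases hex : ∃ e n N, true :: q' = tw e n N
        · obtain ⟨e, m, N, he⟩ := hex
          rw [he, Bool.eq_iff_iff, h.tal, h'.tal]
          refine T1_TB_local hs e m N fun w hw => ih w.length ?_ w rfl ?_
          · rw [← hk, he, T1_tw_length]
            omega
          · rw [he, T1_tw_length] at hq
            omega
        · push Not at hex
          rw [h.oth q' hex, h'.oth q' hex]
  exact fun q hq => key q.length q rfl hq

theorem hat_spec {act : Act} (hs : Short act) (G : Oracle) : Hat act G (hat act G) := by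
  have h := exists_hat hs G
  unfold hat
  rw [dif_pos h]
  exact h.choose_spec

theorem hat_agree {act : Act} (hs : Short act) {G G' : Oracle} {n : ℕ} (h : Agree n G G') :
    Agree n (hat act G) (hat act G') :=
  Hat.agree hs (hat_spec hs G) (hat_spec hs G') h

theorem good_local {act : Act} (hs : Short act) (e : Ver × Ver) (x : List Bool) :
    ∃ n, ∀ G G', Agree n G G' → (PGood act e x G ↔ PGood act e x G') := by
  obtain ⟨q, hq⟩ := acc_local hs e.1
  obtain ⟨q', hq'⟩ := acc_local hs e.2
  refine ⟨max (q.eval x.length) (q'.eval x.length), fun G G' h => ?_⟩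
  have h1 := hq x (hat act G) (hat act G')
    (hat_agree hs (A2_Agree.mono (le_max_left _ _) h))
  have h2 := hq' x (hat act G) (hat act G')
    (hat_agree hs (A2_Agree.mono (le_max_right _ _) h))
  unfold PGood
  rw [h1, h2]

theorem T1_tl_local (i J₀ : ℕ) (x : List Bool) {G G' : Oracle}
    (h : Agree (2 * x.length + 1) G G') : tl i J₀ G x = tl i J₀ G' x := by
  have h1 : (∃ j, J₀ ≤ j ∧ fam j = i ∧ x.length = sc j ∧
      ∃ y : List Bool, y.length = sc j ∧ G (true :: (x ++ y)) = true) ↔
      (∃ j, J₀ ≤ j ∧ fam j = i ∧ x.length = sc j ∧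
      ∃ y : List Bool, y.length = sc j ∧ G' (true :: (x ++ y)) = true) := by
    constructor
    · rintro ⟨j, h1, h2, h3, y, h4, h5⟩
      refine ⟨j, h1, h2, h3, y, h4, ?_⟩
      rw [← h _ (by rw [List.length_cons, List.length_append]; omega)]
      exact h5
    · rintro ⟨j, h1, h2, h3, y, h4, h5⟩
      refine ⟨j, h1, h2, h3, y, h4, ?_⟩
      rw [h _ (by rw [List.length_cons, List.length_append]; omega)]
      exact h5
  unfold tl
  exact decide_eq_decide.2 h1

theorem red_local {act : Act} (hs : Short act) (f : FN) (i J₀ : ℕ) (e : Ver × Ver)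
    (x : List Bool) : ∃ n, ∀ G G', Agree n G G' →
      (PRed act f i J₀ e x G ↔ PRed act f i J₀ e x G') := by
  obtain ⟨q1, h1⟩ := acc_local hs e.1
  obtain ⟨q2, h2⟩ := acc_local hs e.2
  obtain ⟨qf, hf⟩ := QB_word f
  obtain ⟨qo, ho⟩ := out_bound f
  refine ⟨q1.eval (qo.eval x.length) + q2.eval (qo.eval x.length) + qf.eval x.length +
    (2 * x.length + 1), ?_⟩
  intro G G' h
  have e1 : f.run (Xo act (hat act G)) x = f.run (Xo act (hat act G')) x :=
    run_local hs f (hf x _ le_rfl) (hat_agree hs (A2_Agree.mono (by omega) h))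
  have e2 : tl i J₀ G x = tl i J₀ G' x := T1_tl_local i J₀ x (A2_Agree.mono (by omega) h)
  have e3 : (f.run (Xo act (hat act G')) x).length ≤ qo.eval x.length := ho _ x
  have m1 : q1.eval (f.run (Xo act (hat act G')) x).length ≤ q1.eval (qo.eval x.length) :=
    poly_mono q1 e3
  have m2 : q2.eval (f.run (Xo act (hat act G')) x).length ≤ q2.eval (qo.eval x.length) :=
    poly_mono q2 e3
  have e4 := h1 (f.run (Xo act (hat act G')) x) (hat act G) (hat act G')
    (hat_agree hs (A2_Agree.mono (by omega) h))
  have e5 := h2 (f.run (Xo act (hat act G')) x) (hat act G) (hat act G')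
    (hat_agree hs (A2_Agree.mono (by omega) h))
  unfold PRed
  rw [e1, e2, e4, e5]

end Pool.Agent.PudTal
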