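import Mathlib
import Pool.Agent.PudTal.Defs

set_option autoImplicit false

/-!
# T2: generic sets
-/

namespace Pool.Agent.PudTal

open N68a2faeb N793a5b8e N487b59b3 Pool.Agent.Helper22 Pool.Agent.PudOr
open scoped Classical

theorem sc_gap (j : ℕ) : 2 * sc j + 1 < sc (j + 1) := by
  show 2 * sc j + 1 < 2 ^ (sc j + 2)
  have h : sc j < 2 ^ sc j := Nat.lt_two_pow_self
  have h2 : 2 ^ (sc j + 2) = 4 * 2 ^ sc j := by rw [pow_add]; ring
  omega

theorem T2_gap {j J : ℕ} (h : j < J) : 2 * sc j + 1 < sc J :=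
  (sc_gap j).trans_le (sc_strictMono.monotone h)

theorem T2_full_congr {G G' : Oracle} {j : ℕ}
    (h : ∀ q : List Bool, q.length = 2 * sc j + 1 → G q = G' q) {x : List Bool}
    (hx : x.length = sc j) (hG : Full G j x) : Full G' j x := by
  have h1 : ∀ (b : Bool) (y : List Bool), y.length = sc j →
      (G (b :: (x ++ y)) = G' (b :: (x ++ y))) := by
    intro b y hy
    refine h _ ?_
    rw [List.length_cons, List.length_append, hx, hy]
    omega
  unfold Full at hG ⊢
  have h2 : ∀ b : Bool, (∃ y : List Bool, y.length = sc j ∧ G (b :: (x ++ y)) = true) ↔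
      ∃ y : List Bool, y.length = sc j ∧ G' (b :: (x ++ y)) = true := by
    intro b
    constructor
    · rintro ⟨y, hy, hy'⟩
      exact ⟨y, hy, (h1 b y hy).symm.trans hy'⟩
    · rintro ⟨y, hy, hy'⟩
      exact ⟨y, hy, (h1 b y hy).trans hy'⟩
  rw [← h2 true, ← h2 false]
  exact hG

/-- raising the scale bound -/
theorem T2_raiseJ (p : Cond) (C₀ : Oracle) (h₀ : Comp p C₀) (J' : ℕ) (hJ : p.J ≤ J') :
    ∃ p' : Cond, p'.m = p.m ∧ p'.J = J' ∧ Comp p' C₀ ∧ (∀ C', Comp p' C' → Comp p C') ∧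
      ∀ C', Comp p' C' → ∀ q : List Bool, q.length < sc J' → C' q = C₀ q := by
  have hfin : {q : List Bool | q.length < sc J' ∧ C₀ q = true}.Finite :=
    (List.finite_length_lt Bool (sc J')).subset fun q hq => hq.1
  have hmem : ∀ q : List Bool, q ∈ hfin.toFinset.toList ↔ q.length < sc J' ∧ C₀ q = true := by
    intro q
    rw [Finset.mem_toList, Set.Finite.mem_toFinset]
    exact Iff.rfl
  have hagree : ∀ C', Comp (⟨p.m, J', hfin.toFinset.toList⟩ : Cond) C' →
      ∀ q : List Bool, q.length < sc J' → C' q = C₀ q := by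
    intro C' hC' q hq
    have h1 := hC'.1 q hq
    rw [hmem] at h1
    have h2 : C' q = true ↔ C₀ q = true := by
      rw [h1]
      exact ⟨fun h => h.2, fun h => ⟨hq, h⟩⟩
    exact Bool.eq_iff_iff.2 h2
  refine ⟨⟨p.m, J', hfin.toFinset.toList⟩, rfl, rfl, ⟨?_, ?_⟩, ?_, hagree⟩
  · intro q hq
    rw [hmem]
    exact ⟨fun h => ⟨hq, h⟩, fun h => h.2⟩
  · intro j hj
    exact h₀.2 j (hJ.trans hj)
  · intro C' hC'
    have hag := hagree C' hC'
    refine ⟨?_, ?_⟩
    · intro q hq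
      rw [hag q (hq.trans_le (sc_strictMono.monotone hJ))]
      exact h₀.1 q hq
    · intro j hj hf x hx
      by_cases hjJ : J' ≤ j
      · exact hC'.2 j hjJ hf x hx
      · have hlt : 2 * sc j + 1 < sc J' := T2_gap (not_le.1 hjJ)
        exact T2_full_congr (fun q hq => (hag q (hq ▸ hlt)).symm) hx (h₀.2 j hj hf x hx)

/-- the default set from length `n` on -/
noncomputable def T2_dflt (n : ℕ) (C₀ : Oracle) : Oracle := fun q =>
  if q.length < n then C₀ q else
    decide (∃ x : List Bool, q = false :: (x ++ List.replicate x.length false))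

theorem T2_dflt_ok (n : ℕ) (C₀ : Oracle) (j : ℕ) (hj : n ≤ sc j) (x : List Bool)
    (hx : x.length = sc j) : Full (T2_dflt n C₀) j x := by
  have h1 : ¬ ∃ y : List Bool, y.length = sc j ∧ T2_dflt n C₀ (true :: (x ++ y)) = true := by
    rintro ⟨y, hy, hy'⟩
    unfold T2_dflt at hy'
    rw [if_neg (by rw [List.length_cons, List.length_append]; omega), decide_eq_true_eq] at hy'
    obtain ⟨x', hx'⟩ := hy'
    simp at hx'
  have h2 : ∃ y : List Bool, y.length = sc j ∧ T2_dflt n C₀ (false :: (x ++ y)) = true := by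
    refine ⟨List.replicate x.length false, by rw [List.length_replicate, hx], ?_⟩
    unfold T2_dflt
    rw [if_neg (by rw [List.length_cons, List.length_append]; omega), decide_eq_true_eq]
    exact ⟨x, rfl⟩
  exact ⟨fun h => (h1 h).elim, fun h => (h h2).elim⟩

/-- raising the number of protected families -/
theorem T2_raisem (p : Cond) (C₀ : Oracle) (h₀ : Comp p C₀) (m' : ℕ) (hm : p.m ≤ m') :
    Comp (⟨m', p.J, p.pos⟩ : Cond) (T2_dflt (sc p.J) C₀) ∧
      ∀ C', Comp (⟨m', p.J, p.pos⟩ : Cond) C' → Comp p C' := by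
  refine ⟨⟨?_, ?_⟩, ?_⟩
  · intro q hq
    have : T2_dflt (sc p.J) C₀ q = C₀ q := if_pos hq
    rw [this]
    exact h₀.1 q hq
  · intro j hj _ x hx
    exact T2_dflt_ok (sc p.J) C₀ j (sc_strictMono.monotone hj) x hx
  · intro C' hC'
    exact ⟨hC'.1, fun j hj hf => hC'.2 j hj (lt_of_lt_of_le hf hm)⟩

/-- the step of the construction -/
theorem T2_step (Q : List Bool → Oracle → Prop)
    (hQ : ∀ x, ∃ n, ∀ C C', Agree n C C' → (Q x C ↔ Q x C')) (k : ℕ) (p : Cond)
    (hp : ∃ C, Comp p C) :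
    ∃ p' : Cond, (∃ C, Comp p' C) ∧ (∀ C', Comp p' C' → Comp p C') ∧ p.J < p'.J ∧ k ≤ p'.m ∧
      ((∀ C', Comp p' C' → ∀ x, Q x C') ∨ ∃ x, ∀ C', Comp p' C' → ¬ Q x C') := by
  -- first part: decide `Q`
  have h1 : ∃ p' : Cond, (∃ C, Comp p' C) ∧ (∀ C', Comp p' C' → Comp p C') ∧ p.J < p'.J ∧
      ((∀ C', Comp p' C' → ∀ x, Q x C') ∨ ∃ x, ∀ C', Comp p' C' → ¬ Q x C') := by
    by_cases hc : ∃ C₀, Comp p C₀ ∧ ∃ x, ¬ Q x C₀
    · obtain ⟨C₀, h₀, x, hx⟩ := hc
      obtain ⟨n, hn⟩ := hQ x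
      obtain ⟨p', -, hJ, hc', hsub, hag⟩ := T2_raiseJ p C₀ h₀ (max (p.J + 1) n) (by omega)
      refine ⟨p', ⟨C₀, hc'⟩, hsub, by omega, Or.inr ⟨x, fun C' hC' hQ' => hx ?_⟩⟩
      have hle := le_sc (max (p.J + 1) n)
      rw [← hn C' C₀ ?_]
      · exact hQ'
      · intro q hq
        exact hag C' hC' q (by omega)
    · push Not at hc
      obtain ⟨C₀, h₀⟩ := hp
      obtain ⟨p', -, hJ, hc', hsub, -⟩ := T2_raiseJ p C₀ h₀ (p.J + 1) (by omega)
      exact ⟨p', ⟨C₀, hc'⟩, hsub, by omega, Or.inl fun C' hC' x => hc C' (hsub C' hC') x⟩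
  obtain ⟨p', ⟨C₁, hC₁⟩, hsub, hJ, hdec⟩ := h1
  obtain ⟨hc2, hsub2⟩ := T2_raisem p' C₁ hC₁ (max p'.m k) (le_max_left _ _)
  refine ⟨⟨max p'.m k, p'.J, p'.pos⟩, ⟨_, hc2⟩, fun C' hC' => hsub C' (hsub2 C' hC'), hJ,
    le_max_right _ _, ?_⟩
  rcases hdec with hd | ⟨x, hx⟩
  · exact Or.inl fun C' hC' => hd C' (hsub2 C' hC')
  · exact Or.inr ⟨x, fun C' hC' => hx C' (hsub2 C' hC')⟩

theorem exists_gen {ι : Type} [Countable ι] (P : ι → List Bool → Oracle → Prop)
    (hP : ∀ i x, ∃ n, ∀ G G', Agree n G G' → (P i x G ↔ P i x G')) :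
    ∃ G, Nonempty (Gen P G) := by
  obtain ⟨enc, henc⟩ := Countable.exists_injective_nat ι
  let Q : ℕ → List Bool → Oracle → Prop := fun k x C => ∀ i, enc i = k → P i x C
  have hQ : ∀ k x, ∃ n, ∀ C C', Agree n C C' → (Q k x C ↔ Q k x C') := by
    intro k x
    by_cases hk : ∃ i, enc i = k
    · obtain ⟨i, rfl⟩ := hk
      obtain ⟨n, hn⟩ := hP i x
      refine ⟨n, fun C C' hag => ?_⟩
      constructor
      · intro h i' hi'
        have := henc hi'
        subst this
        exact (hn C C' hag).1 (h _ rfl)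
      · intro h i' hi'
        have := henc hi'
        subst this
        exact (hn C C' hag).2 (h _ rfl)
    · refine ⟨0, fun C C' _ => ?_⟩
      exact ⟨fun _ i hi => (hk ⟨i, hi⟩).elim, fun _ i hi => (hk ⟨i, hi⟩).elim⟩
  choose step hs1 hs2 hs3 hs4 hs5 using fun (k : ℕ) (p : {p : Cond // ∃ C, Comp p C}) =>
    T2_step (Q k) (hQ k) (k + 1) p.1 p.2
  have h0 : ∃ C, Comp (⟨0, 0, []⟩ : Cond) C := by
    refine ⟨T2_dflt 2 fun _ => false, ?_, ?_⟩
    · intro q hq
      have hq2 : q.length < 2 := hq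
      have : T2_dflt 2 (fun _ => false) q = false := if_pos hq2
      rw [this]
      simp
    · intro j _ _ x hx
      have h2 := le_sc j
      exact T2_dflt_ok 2 (fun _ => false) j (by omega) x hx
  let s : ℕ → {p : Cond // ∃ C, Comp p C} := fun n =>
    Nat.rec ⟨⟨0, 0, []⟩, h0⟩ (fun k p => ⟨step k p, hs1 k p⟩) n
  have hs : ∀ k, (s (k + 1)).1 = step k (s k) := fun k => rfl
  have hanti1 : ∀ k C', Comp (s (k + 1)).1 C' → Comp (s k).1 C' := by
    intro k C' h
    rw [hs] at h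
    exact hs2 k (s k) C' h
  have hanti : ∀ a b C', a ≤ b → Comp (s b).1 C' → Comp (s a).1 C' := by
    intro a b C' hab
    induction hab with
    | refl => exact id
    | step _ ih => exact fun h => ih (hanti1 _ _ h)
  have hJ1 : ∀ k, (s k).1.J < (s (k + 1)).1.J := by
    intro k
    rw [hs]
    exact hs3 k (s k)
  have hJ : ∀ k, k ≤ (s k).1.J := by
    intro k
    induction k with
    | zero => exact Nat.zero_le _
    | succ k ih =>
      have := hJ1 k
      omega
  have hm : ∀ k, k ≤ (s k).1.m := by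
    intro k
    cases k with
    | zero => exact Nat.zero_le _
    | succ k =>
      rw [hs]
      exact hs4 k (s k)
  let C : Oracle := fun q => decide (q ∈ (s (q.length + 1)).1.pos)
  have hCag : ∀ K C', Comp (s K).1 C' → ∀ q : List Bool, q.length + 1 ≤ K → C' q = C q := by
    intro K C' hC' q hq
    have h1 := (hanti _ K C' hq hC').1 q (by
      have h2 := hJ (q.length + 1)
      have h3 := le_sc (s (q.length + 1)).1.J
      omega)
    have h2 : C q = true ↔ q ∈ (s (q.length + 1)).1.pos := decide_eq_true_iff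
    exact Bool.eq_iff_iff.2 (h1.trans h2.symm)
  have hCcomp : ∀ k, Comp (s k).1 C := by
    intro k
    refine ⟨?_, ?_⟩
    · intro q hq
      obtain ⟨C', hC'⟩ := (s (max k (q.length + 1))).2
      rw [← hCag _ C' hC' q (le_max_right _ _)]
      exact (hanti k _ C' (le_max_left _ _) hC').1 q hq
    · intro j hj hf x hx
      obtain ⟨C', hC'⟩ := (s (max k (2 * sc j + 2))).2
      have hag : ∀ q : List Bool, q.length = 2 * sc j + 1 → C' q = C q := fun q hq =>
        hCag _ C' hC' q (by rw [hq]; exact le_max_right _ _)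
      exact T2_full_congr hag hx ((hanti k _ C' (le_max_left _ _) hC').2 j hj hf x hx)
  refine ⟨C, ⟨⟨fun k => (s k).1, hCcomp, hanti1, fun k => (hJ1 k).le, hm, ?_⟩⟩⟩
  intro i hi
  refine ⟨enc i + 1, fun C' hC' x => ?_⟩
  have hd := hs5 (enc i) (s (enc i))
  rw [← hs] at hd
  rcases hd with hd | ⟨x, hx⟩
  · exact hd C' hC' x i rfl
  · exact (hx C (hCcomp (enc i + 1)) fun i' hi' => by
      have := henc hi'
      subst this
      exact hi x).elim

end Pool.Agent.PudTal
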