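import Mathlib
import Pool.Agent.PudTal.T1
import Pool.Agent.PudTal.T2

set_option autoImplicit false

/-!
# T7: the tally answers can be fixed by few words
-/

namespace Pool.Agent.PudTal

open N68a2faeb N793a5b8e N487b59b3 Pool.Agent.Helper22 Pool.Agent.PudOr
open scoped Classical

/-- The sets which agree with `G₀` off the scale `j`, with `g` at the scale `j` for `x ∈ S`, and
which are full or empty at each other `x`. -/
structure Cls (G₀ : Oracle) (j : ℕ) (S : Finset (List Bool)) (g G : Oracle) : Prop where
  off : ∀ q : List Bool, q.length ≠ 2 * sc j + 1 → G q = G₀ q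
  on : ∀ x ∈ S, ∀ (b : Bool) (y : List Bool), x.length = sc j → y.length = sc j →
    G (b :: (x ++ y)) = g (b :: (x ++ y))
  fe : ∀ x : List Bool, x ∉ S → x.length = sc j → Full G j x ∨
    ∀ (b : Bool) (y : List Bool), y.length = sc j → G (b :: (x ++ y)) = false

/-- the bound for the number of words fixed -/
def nfix (P : ℕ) : ℕ := (P + 1) * (P + 1) * (P + 1) * P

/-- a set of few words misses some word `0 0 x y` -/
theorem T7_unused (s : ℕ) (x : List Bool) (Q : List (List Bool)) (hQ : Q.length < 2 ^ s) :
    ∃ y : List Bool, y.length = s ∧ false :: false :: (x ++ y) ∉ Q := by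
  by_contra hcon
  push Not at hcon
  let g : (Fin s → Bool) → List Bool := fun f => false :: false :: (x ++ List.ofFn f)
  have hg : Function.Injective g := by
    intro f f' h
    simp only [g, List.cons.injEq, true_and, List.append_cancel_left_eq] at h
    exact List.ofFn_injective h
  have hsub : Finset.univ.image g ⊆ Q.toFinset := by
    intro q hq
    obtain ⟨f, _, rfl⟩ := Finset.mem_image.1 hq
    rw [List.mem_toFinset]
    exact hcon _ (by simp)
  have h1 := Finset.card_le_card hsub
  rw [Finset.card_image_of_injective _ hg, Finset.card_univ, Fintype.card_fun, Fintype.card_bool,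
    Fintype.card_fin] at h1
  have h2 := List.toFinset_card_le Q
  omega

theorem T7_full_congr {G G' : Oracle} {j : ℕ} {x : List Bool}
    (h : ∀ (b : Bool) (y : List Bool), y.length = sc j → G (b :: (x ++ y)) = G' (b :: (x ++ y))) :
    Full G j x ↔ Full G' j x := by
  have e : ∀ b : Bool, (∃ y : List Bool, y.length = sc j ∧ G (b :: (x ++ y)) = true) ↔
      ∃ y : List Bool, y.length = sc j ∧ G' (b :: (x ++ y)) = true := by
    intro b
    constructor
    · rintro ⟨y, h1, h2⟩
      exact ⟨y, h1, by rw [← h b y h1]; exact h2⟩
    · rintro ⟨y, h1, h2⟩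
      exact ⟨y, h1, by rw [h b y h1]; exact h2⟩
  unfold Full
  rw [e true, e false]

/-- the start -/
theorem T7_start (j : ℕ) : ∃ g : Oracle, ∀ x : List Bool, x.length = sc j → Full g j x := by
  refine ⟨fun q => decide (q.head? = some false ∧ q.tail.drop (sc j) =
    List.replicate (sc j) false), ?_⟩
  intro x hx
  unfold Full
  constructor
  · rintro ⟨y, _, h⟩
    simp at h
  · intro h
    exfalso
    apply h
    refine ⟨List.replicate (sc j) false, by simp, ?_⟩
    simp only [List.head?_cons, List.tail_cons, decide_eq_true_eq, true_and]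
    rw [← hx, List.drop_left]

/-- one step -/
theorem T7_step {act : Act} (hs : Short act) (G₀ : Oracle) (j P : ℕ) (hP : P < 2 ^ sc j)
    (S : Finset (List Bool)) (g : Oracle) (hg : ∀ x : List Bool, x.length = sc j → Full g j x)
    (e n N : ℕ) (hN : N ≤ P)
    (hlow : ∀ G G', Cls G₀ j S g G → Cls G₀ j S g G' → ∀ e n N', e ≤ P → n ≤ P → N' < N →
      hat act G (tw e n N') = hat act G' (tw e n N')) :
    ∃ (S' : Finset (List Bool)) (g' : Oracle), S'.card ≤ S.card + P ∧
      (∀ x : List Bool, x.length = sc j → Full g' j x) ∧
      (∀ G, Cls G₀ j S' g' G → Cls G₀ j S g G) ∧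
      ∀ G G', Cls G₀ j S' g' G → Cls G₀ j S' g' G' →
        hat act G (tw e n N) = hat act G' (tw e n N) := by
  by_cases hex : ∃ G, Cls G₀ j S g G ∧ TB act e n N (hat act G)
  swap
  · refine ⟨S, g, by omega, hg, fun G h => h, ?_⟩
    have hf : ∀ G, Cls G₀ j S g G → hat act G (tw e n N) = false := by
      intro G hG
      rw [Bool.eq_false_iff]
      intro h
      exact hex ⟨G, hG, ((hat_spec hs G).tal e n N).1 h⟩
    intro G G' hG hG'
    rw [hf G hG, hf G' hG']
  obtain ⟨Gs, hGs, w, hw, hQ, hrun⟩ := hex
  set U := used act (enumV e) (hat act Gs) (un n, w) with hU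
  have hUlen : U.length ≤ P := ((used_length act (enumV e) (hat act Gs) (un n, w)).trans hQ.1).trans hN
  set s := sc j with hsdef
  choose y₀ hy₀ using fun x => T7_unused s x U (by omega)
  let S' : Finset (List Bool) := S ∪ (U.map fun q => (q.drop 2).take s).toFinset
  let g' : Oracle := fun q =>
    if q.tail.take s ∈ S' ∧ q.tail.take s ∉ S then
      (if Full Gs j (q.tail.take s) then Gs q else
        decide (q = false :: (q.tail.take s ++ y₀ (q.tail.take s))))
    else g q
  have htake : ∀ (b : Bool) (x y : List Bool), x.length = s → (b :: (x ++ y)).tail.take s = x := by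
    intro b x y hx
    rw [List.tail_cons, ← hx, List.take_left]
  have g1 : ∀ (b : Bool) (x y : List Bool), x.length = s → ¬ (x ∈ S' ∧ x ∉ S) →
      g' (b :: (x ++ y)) = g (b :: (x ++ y)) := by
    intro b x y hx hn
    simp only [g', htake b x y hx, if_neg hn]
  have g2 : ∀ (b : Bool) (x y : List Bool), x.length = s → (x ∈ S' ∧ x ∉ S) → Full Gs j x →
      g' (b :: (x ++ y)) = Gs (b :: (x ++ y)) := by
    intro b x y hx hn hf
    simp only [g', htake b x y hx, if_pos hn, if_pos hf]
  have g3 : ∀ (b : Bool) (x y : List Bool), x.length = s → (x ∈ S' ∧ x ∉ S) → ¬ Full Gs j x →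
      g' (b :: (x ++ y)) = decide (b :: (x ++ y) = false :: (x ++ y₀ x)) := by
    intro b x y hx hn hf
    simp only [g', htake b x y hx, if_pos hn, if_neg hf]
  have hg' : ∀ x : List Bool, x.length = sc j → Full g' j x := by
    intro x hx
    by_cases hn : x ∈ S' ∧ x ∉ S
    · by_cases hf : Full Gs j x
      · exact (T7_full_congr fun b y _ => g2 b x y hx hn hf).2 hf
      · unfold Full
        constructor
        · rintro ⟨y, _, h⟩
          rw [g3 true x y hx hn hf] at h
          simp at h
        · intro h
          exfalso
          apply h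
          refine ⟨y₀ x, (hy₀ x).1, ?_⟩
          rw [g3 false x _ hx hn hf]
          simp
    · exact (T7_full_congr fun b y _ => g1 b x y hx hn).2 (hg x hx)
  have hsub : ∀ G, Cls G₀ j S' g' G → Cls G₀ j S g G := by
    intro G hG
    refine ⟨hG.off, ?_, ?_⟩
    · intro x hx b y hxl hyl
      rw [hG.on x (Finset.mem_union_left _ hx) b y hxl hyl, g1 b x y hxl fun h => h.2 hx]
    · intro x hx hxl
      by_cases hx' : x ∈ S'
      · left
        exact (T7_full_congr fun b y hy => hG.on x hx' b y hxl hy).2 (hg' x hxl)
      · exact hG.fe x hx' hxl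
  refine ⟨S', g', ?_, hg', hsub, ?_⟩
  · have h1 : S'.card ≤ S.card + (U.map fun q => (q.drop 2).take s).toFinset.card :=
      Finset.card_union_le _ _
    have h2 := List.toFinset_card_le (U.map fun q => (q.drop 2).take s)
    rw [List.length_map] at h2
    omega
  have hall : ∀ G, Cls G₀ j S' g' G → hat act G (tw e n N) = true := by
    intro G hG
    refine ((hat_spec hs G).tal e n N).2 ⟨w, hw, hQ, ?_⟩
    rw [← hrun]
    apply run_used
    intro q hq
    -- the length of `q`
    have hql : q.length < N := by
      obtain ⟨i, hi, hact⟩ := (mem_used act (enumV e) (hat act Gs) (un n, w) q).1 hq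
      refine (hs _ _ hact).trans_lt (hQ.2 _ ?_)
      rw [OracleProc.answers_length]
      exact hi.le
    rcases q with _ | ⟨b, q⟩
    · rw [(hat_spec hs G).nil, (hat_spec hs Gs).nil]
    · cases b with
      | true =>
        by_cases ht : ∃ e' n' N', true :: q = tw e' n' N'
        · obtain ⟨e', n', N', ht⟩ := ht
          rw [ht] at hql ⊢
          have hl : (tw e' n' N').length = 1 + (2 * e' + 1 + (2 * n' + 1 + N')) := by
            unfold tw
            rw [List.length_cons, cd_length, cd_length, un_length, un_length, un_length]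
            ring
          rw [hl] at hql
          exact hlow G Gs (hsub G hG) hGs e' n' N' (by omega) (by omega) (by omega)
        · push Not at ht
          rw [(hat_spec hs G).oth q ht, (hat_spec hs Gs).oth q ht]
      | false =>
        rw [(hat_spec hs G).gen, (hat_spec hs Gs).gen]
        by_cases hlen : q.length = 2 * sc j + 1
        · rcases q with _ | ⟨b, r⟩
          · simp at hlen
          · rw [List.length_cons] at hlen
            obtain ⟨x, y, hxl, hyl, rfl⟩ : ∃ x y : List Bool, x.length = s ∧ y.length = s ∧
                r = x ++ y := by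
              refine ⟨r.take s, r.drop s, ?_, ?_, (List.take_append_drop s r).symm⟩
              · rw [List.length_take]; omega
              · rw [List.length_drop]; omega
            have hx' : x ∈ S' := by
              apply Finset.mem_union_right
              rw [List.mem_toFinset, List.mem_map]
              refine ⟨false :: b :: (x ++ y), hq, ?_⟩
              show ((x ++ y)).take s = x
              rw [← hxl, List.take_left]
            rw [hG.on x hx' b y hxl hyl]
            by_cases hx : x ∈ S
            · rw [g1 b x y hxl fun h => h.2 hx, hGs.on x hx b y hxl hyl]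
            · by_cases hf : Full Gs j x
              · rw [g2 b x y hxl ⟨hx', hx⟩ hf]
              · rw [g3 b x y hxl ⟨hx', hx⟩ hf]
                have he := (hGs.fe x hx hxl).resolve_left hf b y hyl
                rw [he, decide_eq_false_iff_not]
                intro h
                apply (hy₀ x).2
                rw [← h]
                exact hq
        · rw [hG.off q hlen, hGs.off q hlen]
  intro G G' hG hG'
  rw [hall G hG, hall G' hG']

theorem robust {act : Act} (hs : Short act) (G₀ : Oracle) (j P : ℕ) (hP : P < 2 ^ sc j) :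
    ∃ (S : Finset (List Bool)) (g : Oracle), S.card ≤ nfix P ∧
      (∀ x : List Bool, x.length = sc j → Full g j x) ∧
      ∀ G G', Cls G₀ j S g G → Cls G₀ j S g G' → ∀ e n N, e ≤ P → n ≤ P → N ≤ P →
        hat act G (tw e n N) = hat act G' (tw e n N) := by
  have main : ∀ k : ℕ, k ≤ P + 1 → ∃ (S : Finset (List Bool)) (g : Oracle),
      S.card ≤ (k * ((P + 1) * (P + 1))) * P ∧
      (∀ x : List Bool, x.length = sc j → Full g j x) ∧
      ∀ G G', Cls G₀ j S g G → Cls G₀ j S g G' → ∀ e n N, e ≤ P → n ≤ P → N < k →
        hat act G (tw e n N) = hat act G' (tw e n N) := by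
    intro k
    induction k with
    | zero =>
      intro _
      obtain ⟨g, hg⟩ := T7_start j
      exact ⟨∅, g, by simp, hg, fun G G' _ _ e n N _ _ h => absurd h (by omega)⟩
    | succ k ih =>
      intro hk
      obtain ⟨S, g, hc, hg, hlow⟩ := ih (by omega)
      have inner : ∀ m : ℕ, m ≤ (P + 1) * (P + 1) → ∃ (S' : Finset (List Bool)) (g' : Oracle),
          S'.card ≤ (k * ((P + 1) * (P + 1)) + m) * P ∧
          (∀ x : List Bool, x.length = sc j → Full g' j x) ∧
          (∀ G, Cls G₀ j S' g' G → Cls G₀ j S g G) ∧
          ∀ G G', Cls G₀ j S' g' G → Cls G₀ j S' g' G' → ∀ i < m,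
            hat act G (tw (i / (P + 1)) (i % (P + 1)) k) =
              hat act G' (tw (i / (P + 1)) (i % (P + 1)) k) := by
        intro m
        induction m with
        | zero =>
          intro _
          exact ⟨S, g, by simpa using hc, hg, fun G h => h,
            fun G G' _ _ i hi => absurd hi (by omega)⟩
        | succ m ihm =>
          intro hm
          obtain ⟨S', g', hc', hg', hsub, heq⟩ := ihm (by omega)
          obtain ⟨S'', g'', hc'', hg'', hsub', heq'⟩ := T7_step hs G₀ j P hP S' g' hg'
            (m / (P + 1)) (m % (P + 1)) k (by omega)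
            (fun G G' hG hG' e n N he hn hN => hlow G G' (hsub G hG) (hsub G' hG') e n N he hn hN)
          refine ⟨S'', g'', ?_, hg'', fun G h => hsub G (hsub' G h), ?_⟩
          · have : (k * ((P + 1) * (P + 1)) + (m + 1)) * P =
                (k * ((P + 1) * (P + 1)) + m) * P + P := by ring
            omega
          · intro G G' hG hG' i hi
            rcases Nat.lt_succ_iff_lt_or_eq.1 hi with h | h
            · exact heq G G' (hsub' G hG) (hsub' G' hG') i h
            · subst h
              exact heq' G G' hG hG'
      obtain ⟨S', g', hc', hg', hsub, heq⟩ := inner _ le_rfl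
      refine ⟨S', g', ?_, hg', ?_⟩
      · have : (k * ((P + 1) * (P + 1)) + (P + 1) * (P + 1)) * P =
            ((k + 1) * ((P + 1) * (P + 1))) * P := by ring
        omega
      · intro G G' hG hG' e n N he hn hN
        rcases Nat.lt_succ_iff_lt_or_eq.1 hN with h | h
        · exact hlow G G' (hsub G hG) (hsub G' hG') e n N he hn h
        · subst h
          have h1 : e * (P + 1) + n < (P + 1) * (P + 1) := by nlinarith
          have h2 := heq G G' hG hG' (e * (P + 1) + n) h1
          have h3 : (e * (P + 1) + n) / (P + 1) = e := by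
            rw [mul_comm, Nat.mul_add_div (by omega), Nat.div_eq_of_lt (by omega), add_zero]
          have h4 : (e * (P + 1) + n) % (P + 1) = n := by
            rw [mul_comm, Nat.mul_add_mod, Nat.mod_eq_of_lt (by omega)]
          rw [h3, h4] at h2
          exact h2
  obtain ⟨S, g, hc, hg, h⟩ := main (P + 1) le_rfl
  refine ⟨S, g, ?_, hg, fun G G' hG hG' e n N he hn hN => h G G' hG hG' e n N he hn (by omega)⟩
  have : nfix P = ((P + 1) * ((P + 1) * (P + 1))) * P := by unfold nfix; ring
  omega

end Pool.Agent.PudTal
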