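import Mathlib
import Pool.Agent.PudOr.A6b
import Pool.Agent.PudTal.T7

set_option autoImplicit false

/-!
# T8: the clash
-/

namespace Pool.Agent.PudTal

open N68a2faeb N793a5b8e N487b59b3 Pool.Agent.Helper22 Pool.Agent.PudOr
open scoped Classical

/-- `G₀` off the scale `j`, the words of `K` at `x`, and `g` at the other words of the scale -/
noncomputable def T8_G (G₀ g : Oracle) (j : ℕ) (x : List Bool) (K : List (List Bool)) : Oracle :=
  fun q => if q.length ≠ 2 * sc j + 1 then G₀ q
    else if q.tail.take (sc j) = x then decide (q ∈ K) else g q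

theorem T8_off {G₀ g : Oracle} {j : ℕ} {x : List Bool} {K : List (List Bool)} {q : List Bool}
    (h : q.length ≠ 2 * sc j + 1) : T8_G G₀ g j x K q = G₀ q := by
  unfold T8_G
  rw [if_pos h]

theorem T8_len {j : ℕ} {x' y : List Bool} (b : Bool) (hx : x'.length = sc j)
    (hy : y.length = sc j) : (b :: (x' ++ y)).length = 2 * sc j + 1 := by
  rw [List.length_cons, List.length_append, hx, hy]
  omega

theorem T8_tail {j : ℕ} {x' y : List Bool} (b : Bool) (hx : x'.length = sc j) :
    (b :: (x' ++ y)).tail.take (sc j) = x' := by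
  rw [List.tail_cons, ← hx, List.take_left]

theorem T8_at {G₀ g : Oracle} {j : ℕ} {x : List Bool} {K : List (List Bool)} {y : List Bool}
    (b : Bool) (hx : x.length = sc j) (hy : y.length = sc j) :
    T8_G G₀ g j x K (b :: (x ++ y)) = decide (b :: (x ++ y) ∈ K) := by
  unfold T8_G
  rw [if_neg (by rw [T8_len b hx hy]; simp), if_pos (T8_tail b hx)]

theorem T8_ne {G₀ g : Oracle} {j : ℕ} {x : List Bool} {K : List (List Bool)} {x' y : List Bool}
    (b : Bool) (hx' : x'.length = sc j) (hy : y.length = sc j) (hne : x' ≠ x) :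
    T8_G G₀ g j x K (b :: (x' ++ y)) = g (b :: (x' ++ y)) := by
  unfold T8_G
  rw [if_neg (by rw [T8_len b hx' hy]; simp), if_neg (by rw [T8_tail b hx']; exact hne)]

/-- the two contents differ only at the new word -/
theorem T8_diff {G₀ g : Oracle} {j : ℕ} {x q' : List Bool} {q : List Bool} (h : q ≠ q') :
    T8_G G₀ g j x [q'] q = T8_G G₀ g j x [] q := by
  unfold T8_G
  have h1 : decide (q ∈ [q']) = decide (q ∈ ([] : List (List Bool))) := by
    rw [decide_eq_decide]
    simp [h]
  rw [h1]

theorem T8_Full_off {G₀ G : Oracle} {j j' : ℕ} (hne : j' ≠ j)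
    (h : ∀ q : List Bool, q.length ≠ 2 * sc j + 1 → G q = G₀ q) {x : List Bool}
    (hx : x.length = sc j') (hF : Full G₀ j' x) : Full G j' x := by
  have hsc : sc j' ≠ sc j := fun h' => hne (sc_strictMono.injective h')
  have h1 : ∀ (b : Bool) (y : List Bool), y.length = sc j' →
      G (b :: (x ++ y)) = G₀ (b :: (x ++ y)) := by
    intro b y hy
    apply h
    rw [T8_len b hx hy]
    omega
  unfold Full at hF ⊢
  have h2 : ∀ b : Bool, (∃ y : List Bool, y.length = sc j' ∧ G (b :: (x ++ y)) = true) ↔
      (∃ y : List Bool, y.length = sc j' ∧ G₀ (b :: (x ++ y)) = true) := by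
    intro b
    constructor
    · rintro ⟨y, hy, hy'⟩
      exact ⟨y, hy, by rw [← h1 b y hy]; exact hy'⟩
    · rintro ⟨y, hy, hy'⟩
      exact ⟨y, hy, by rw [h1 b y hy]; exact hy'⟩
  rw [h2, h2]
  exact hF

theorem T8_Full_congr {g G : Oracle} {j : ℕ} {x : List Bool}
    (h1 : ∀ (b : Bool) (y : List Bool), y.length = sc j →
      G (b :: (x ++ y)) = g (b :: (x ++ y))) (hF : Full g j x) : Full G j x := by
  unfold Full at hF ⊢
  have h2 : ∀ b : Bool, (∃ y : List Bool, y.length = sc j ∧ G (b :: (x ++ y)) = true) ↔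
      (∃ y : List Bool, y.length = sc j ∧ g (b :: (x ++ y)) = true) := by
    intro b
    constructor
    · rintro ⟨y, hy, hy'⟩
      exact ⟨y, hy, by rw [← h1 b y hy]; exact hy'⟩
    · rintro ⟨y, hy, hy'⟩
      exact ⟨y, hy, by rw [h1 b y hy]; exact hy'⟩
  rw [h2, h2]
  exact hF

theorem T8_single {G₀ g : Oracle} {j : ℕ} {x y : List Bool} (b b' : Bool)
    (hx : x.length = sc j) (hy : y.length = sc j) :
    (∃ y' : List Bool, y'.length = sc j ∧
      T8_G G₀ g j x [b :: (x ++ y)] (b' :: (x ++ y')) = true) ↔ b' = b := by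
  constructor
  · rintro ⟨y', hy', h⟩
    rw [T8_at b' hx hy', decide_eq_true_eq, List.mem_singleton] at h
    injection h
  · rintro rfl
    refine ⟨y, hy, ?_⟩
    rw [T8_at b' hx hy, decide_eq_true_eq]
    exact List.mem_singleton_self _

theorem T8_Full_single {G₀ g : Oracle} {j : ℕ} {x y : List Bool} (b : Bool)
    (hx : x.length = sc j) (hy : y.length = sc j) :
    Full (T8_G G₀ g j x [b :: (x ++ y)]) j x := by
  unfold Full
  rw [T8_single b true hx hy, T8_single b false hx hy]
  cases b <;> simp

theorem T8_tw_length (e n N : ℕ) :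
    e ≤ (tw e n N).length ∧ n ≤ (tw e n N).length ∧ N ≤ (tw e n N).length := by
  unfold tw
  rw [List.length_cons, cd_length, cd_length, un_length, un_length, un_length]
  omega

/-- the words of `hat` up to length `P` -/
theorem T8_hat {act : Act} (hs : Short act) {G G' : Oracle} {P : ℕ}
    (ht : ∀ e n N, e ≤ P → n ≤ P → N ≤ P → hat act G (tw e n N) = hat act G' (tw e n N))
    {q : List Bool} (hq : q.length ≤ P) (hgen : ∀ q', q = false :: q' → G q' = G' q') :
    hat act G q = hat act G' q := by
  have h1 := hat_spec hs G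
  have h2 := hat_spec hs G'
  rcases q with - | ⟨b, q'⟩
  · rw [h1.nil, h2.nil]
  · cases b
    · rw [h1.gen, h2.gen]
      exact hgen q' rfl
    · by_cases h : ∃ e n N, true :: q' = tw e n N
      · obtain ⟨e, n, N, h⟩ := h
        rw [h] at hq ⊢
        obtain ⟨a1, a2, a3⟩ := T8_tw_length e n N
        exact ht e n N (a1.trans hq) (a2.trans hq) (a3.trans hq)
      · push Not at h
        rw [h1.oth q' h, h2.oth q' h]

theorem T8_mem_length {α β : Type} [N487b59b3 α] [N487b59b3 β] {act : Act} (hs : Short act)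
    (M : OracleProc α β) {C : Oracle} {a : α} {N : ℕ} (h : QB M a N) {q : List Bool}
    (hq : q ∈ used act M C a) : q.length ≤ N := by
  obtain ⟨n, hn, hz⟩ := (mem_used act M C a q).1 hq
  have h1 := hs _ _ hz
  have h2 := h.2 (M.answers (Xo act C) a n) (by rw [OracleProc.answers_length]; omega)
  omega

theorem clash {act : Act} (hs : Short act) {c c' : Cond}
    (hcc : ∀ G', Comp c' G' → Comp c G') (hJ : c.J ≤ c'.J) {G₀ : Oracle} (hG₀ : Comp c' G₀)
    {i : ℕ} (hi : c.m ≤ i) (J₀ : ℕ) (e : Ver × Ver)
    (hgood : ∀ G', Comp c G' → ∀ x, PGood act e x G') (f : FN)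
    (hred : ∀ G', Comp c' G' → ∀ x, PRed act f i J₀ e x G') : False := by
  obtain ⟨qf, hqf⟩ := QB_word f
  obtain ⟨q1, hq1⟩ := QB_ver e.1
  obtain ⟨q2, hq2⟩ := QB_ver e.2
  obtain ⟨qo, hqo⟩ := out_bound f
  set r : Polynomial ℕ := qf + (q1.comp qo + q2.comp qo) with hr
  obtain ⟨N, hN⟩ := a6b_poly ((r + 1) * (r + 1) * (r + 1) * r + r)
  obtain ⟨j, hj, hfam⟩ := exists_fam i (max N (max c'.J J₀))
  have hjN : N ≤ j := (le_max_left _ _).trans hj
  have hjJ : c'.J ≤ j := (le_max_left _ _).trans ((le_max_right _ _).trans hj)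
  have hjJ0 : J₀ ≤ j := (le_max_right _ _).trans ((le_max_right _ _).trans hj)
  have hscj := le_sc j
  have hk := hN (sc j) (by omega)
  set P := r.eval (sc j) with hPdef
  have hpow : 2 ^ (sc j - 2) ≤ 2 ^ sc j := Nat.pow_le_pow_right (by norm_num) (Nat.sub_le _ _)
  have hk2 : nfix P + P < 2 ^ sc j := by
    have h1 : ((r + 1) * (r + 1) * (r + 1) * r + r).eval (sc j) = nfix P + P := by
      simp only [Polynomial.eval_add, Polynomial.eval_mul, Polynomial.eval_one, nfix, hPdef]
    rw [h1] at hk
    omega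
  have hPval : P = qf.eval (sc j) + (q1.eval (qo.eval (sc j)) + q2.eval (qo.eval (sc j))) := by
    rw [hPdef, hr, Polynomial.eval_add, Polynomial.eval_add, Polynomial.eval_comp,
      Polynomial.eval_comp]
  obtain ⟨S, g, hS, hg, hrob⟩ := robust hs G₀ j P (by omega)
  -- a free word
  obtain ⟨x, hxl, hxS⟩ : ∃ x : List Bool, x.length = sc j ∧ x ∉ S := by
    by_contra hcon
    push Not at hcon
    have h1 : a6bW (sc j) ⊆ S := fun x hx => hcon x ((a6bW_mem _ x).1 hx)
    have h2 := Finset.card_le_card h1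
    rw [a6bW_card] at h2
    omega
  set G : List (List Bool) → Oracle := T8_G G₀ g j x with hG
  -- off the scale
  have hcompc : ∀ (p : Cond) (K : List (List Bool)), Comp p G₀ → p.J ≤ j →
      (fam j < p.m → ∀ x' : List Bool, x'.length = sc j → Full (G K) j x') →
      Comp p (G K) := by
    intro p K hp hpj h
    refine ⟨fun q hq => ?_, fun j' hj' hf x' hx' => ?_⟩
    · have hle : sc p.J ≤ sc j := sc_strictMono.monotone hpj
      rw [hG, T8_off (by omega)]
      exact hp.1 q hq
    · by_cases hjj : j' = j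
      · subst hjj
        exact h hf x' hx'
      · exact T8_Full_off hjj (fun q hq => T8_off hq) hx' (hp.2 j' hj' hf x' hx')
  have hcomp0 : Comp c (G []) :=
    hcompc c [] (hcc G₀ hG₀) (hJ.trans hjJ) (fun hf => by omega)
  have hfull1 : ∀ (b : Bool) (y : List Bool), y.length = sc j → ∀ x' : List Bool,
      x'.length = sc j → Full (G [b :: (x ++ y)]) j x' := by
    intro b y hy x' hx'
    by_cases hxx : x' = x
    · subst hxx
      exact T8_Full_single b hxl hy
    · exact T8_Full_congr (fun b' y' hy' => T8_ne b' hx' hy' hxx) (hg x' hx')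
  have hcomp1 : ∀ (b : Bool) (y : List Bool), y.length = sc j → Comp c' (G [b :: (x ++ y)]) :=
    fun b y hy => hcompc c' _ hG₀ hjJ (fun _ => hfull1 b y hy)
  have hcls : ∀ K : List (List Bool), (Full (G K) j x ∨ K = []) → Cls G₀ j S g (G K) := by
    intro K hK
    refine ⟨fun q hq => T8_off hq, fun x' hx'S b y hx' hy => ?_, fun x' hx'S hx' => ?_⟩
    · exact T8_ne b hx' hy (fun h => hxS (h ▸ hx'S))
    · by_cases hxx : x' = x
      · subst hxx
        rcases hK with hK | hK
        · exact Or.inl hK
        · right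
          intro b y hy
          rw [hG, T8_at b hx' hy, hK]
          simp
      · exact Or.inl (T8_Full_congr (fun b' y' hy' => T8_ne b' hx' hy' hxx) (hg x' hx'))
  -- the verifier that accepts for the empty content
  set X0 : Oracle := hat act (G []) with hX0
  have hgood0 := hgood (G []) hcomp0 (f.run (Xo act X0) x)
  unfold PGood at hgood0
  obtain ⟨a, ha⟩ : ∃ a : Bool, Acc act (side a e) (f.run (Xo act X0) x) X0 := by
    by_cases h1 : Acc act e.1 (f.run (Xo act X0) x) X0
    · exact ⟨true, h1⟩
    · refine ⟨false, ?_⟩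
      by_contra h2
      exact h1 (hgood0.2 h2)
  obtain ⟨w, hw, hrun⟩ := ha
  -- the words used
  have bo : (f.run (Xo act X0) x).length ≤ qo.eval (sc j) := by
    have := hqo (Xo act X0) x
    rwa [hxl] at this
  have hqbf : QB f x (qf.eval (sc j)) := hqf x _ (le_of_eq (by rw [hxl]))
  have hqbv : QB (side a e).1 (f.run (Xo act X0) x, w)
      (q1.eval (qo.eval (sc j)) + q2.eval (qo.eval (sc j))) := by
    cases a
    · exact ((hq2 (f.run (Xo act X0) x) _ (poly_mono q2 bo) w hw).2).mono (Nat.le_add_left _ _)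
    · exact ((hq1 (f.run (Xo act X0) x) _ (poly_mono q1 bo) w hw).2).mono (Nat.le_add_right _ _)
  set U : List (List Bool) := used act f X0 x ++
    used act (side a e).1 X0 (f.run (Xo act X0) x, w) with hU
  have hUlen : U.length ≤ P := by
    rw [hU, List.length_append, hPval]
    exact Nat.add_le_add ((used_length act f X0 x).trans hqbf.1)
      ((used_length act _ X0 _).trans hqbv.1)
  have hUmem : ∀ q ∈ U, q.length ≤ P := by
    intro q hq
    rw [hU, List.mem_append] at hq
    rcases hq with hq | hq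
    · have := T8_mem_length hs f hqbf hq
      omega
    · have := T8_mem_length hs _ hqbv hq
      omega
  obtain ⟨y, hyl, hyU⟩ : ∃ y : List Bool, y.length = sc j ∧
      false :: (!a) :: (x ++ y) ∉ U := by
    by_contra hcon
    push Not at hcon
    have h1 : a6bW (sc j) ⊆ (a6bW (sc j)).filter fun y => false :: (!a) :: (x ++ y) ∈ U := by
      intro y hy
      rw [Finset.mem_filter]
      exact ⟨hy, hcon y ((a6bW_mem _ y).1 hy)⟩
    have h2 := Finset.card_le_card h1
    have h3 := a6b_card_le (a6bW (sc j)) (fun y => false :: (!a) :: (x ++ y))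
      (fun y y' h => by simpa using h) U
    rw [a6bW_card] at h2
    omega
  set G1 : Oracle := G [(!a) :: (x ++ y)] with hG1
  have hc1 : Comp c' G1 := hcomp1 _ y hyl
  have hcl0 : Cls G₀ j S g (G []) := hcls [] (Or.inr rfl)
  have hcl1 : Cls G₀ j S g G1 := hcls _ (Or.inl (hfull1 _ y hyl x hxl))
  have hsame : ∀ q ∈ U, hat act G1 q = X0 q := by
    intro q hq
    refine T8_hat hs (P := P) (hrob G1 (G []) hcl1 hcl0) (hUmem q hq) ?_
    rintro q' rfl
    refine T8_diff fun h => ?_
    rw [h] at hq
    exact hyU hq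
  have e1 : f.run (Xo act (hat act G1)) x = f.run (Xo act X0) x :=
    run_used act f fun q hq => hsame q (by rw [hU]; exact List.mem_append_left _ hq)
  have e2 : (side a e).1.run (Xo act (hat act G1)) (f.run (Xo act X0) x, w) =
      (side a e).1.run (Xo act X0) (f.run (Xo act X0) x, w) :=
    run_used act _ fun q hq => hsame q (by rw [hU]; exact List.mem_append_right _ hq)
  have hacc1 : Acc act (side a e) (f.run (Xo act (hat act G1)) x) (hat act G1) := by
    refine ⟨w, ?_, ?_⟩
    · rw [e1]; exact hw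
    · rw [e1, e2]; exact hrun
  -- the language
  have htl : tl i J₀ G1 x = !a := by
    have h1 : (∃ j', J₀ ≤ j' ∧ fam j' = i ∧ x.length = sc j' ∧
        ∃ y' : List Bool, y'.length = sc j' ∧ G1 (true :: (x ++ y')) = true) ↔
        true = !a := by
      rw [← T8_single (G₀ := G₀) (g := g) (!a) true hxl hyl]
      constructor
      · rintro ⟨j', -, -, hj', h⟩
        have : j' = j := sc_strictMono.injective (by omega)
        subst this
        exact h
      · intro h
        exact ⟨j, hjJ0, hfam, hxl, h⟩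
    unfold tl
    by_cases h2 : true = !a
    · rw [decide_eq_true (h1.2 h2)]
      exact h2
    · rw [decide_eq_false (fun h => h2 (h1.1 h))]
      cases a
      · exact absurd rfl h2
      · rfl
  have hr1 := hred G1 hc1 x
  have hg1 := hgood G1 (hcc G1 hc1) (f.run (Xo act (hat act G1)) x)
  unfold PGood at hg1
  cases a
  · exact hg1.1 (hr1.1 htl) hacc1
  · exact hg1.1 hacc1 (hr1.2 htl)

end Pool.Agent.PudTal
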