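import Mathlib
import Pool.Agent.PudTal.T4
import Pool.Agent.PudTal.T5
import Pool.Agent.PudTal.T6
import Pool.Agent.PudTal.T8

set_option autoImplicit false

/-!
# T9: the theorem
-/

namespace Pool.Agent.PudTal

open N68a2faeb N793a5b8e N487b59b3 Pool.Agent.Helper22 Pool.Agent.PudOr
open Pool.Agent.Helper20.Cons (Tally Po)
open scoped Classical

/-- the functionals -/
noncomputable def T9Th : Unit ⊕ Unit ⊕ Unit ⊕ (ℕ × ℕ × Bool) → Act → List Bool →
    Strat × (Oracle → Bool)
  | .inl _ => thRead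
  | .inr (.inl _) => thK
  | .inr (.inr (.inl _)) => thC
  | .inr (.inr (.inr (i, J, b))) => thT i J b

/-- the statements -/
def T9P (act : Act) : (Ver × Ver) ⊕ (FN × ℕ × ℕ × (Ver × Ver)) → List Bool → Oracle → Prop
  | .inl e => PGood act e
  | .inr (f, i, J, e) => PRed act f i J e

theorem T9_local {act : Act} (hs : Short act) : ∀ i x, ∃ n, ∀ G G', Agree n G G' →
    (T9P act i x G ↔ T9P act i x G') := by
  rintro (e | ⟨f, i, J, e⟩) x
  · exact good_local hs e x
  · exact red_local hs f i J e x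

theorem Gen.anti_le {ι : Type} {P : ι → List Bool → Oracle → Prop} {G : Oracle}
    (g : Gen P G) {m n : ℕ} (h : m ≤ n) (G' : Oracle) (hG' : Comp (g.p n) G') :
    Comp (g.p m) G' := by
  induction n, h using Nat.le_induction with
  | base => exact hG'
  | succ n _ ih => exact ih (g.anti n G' hG')

theorem Gen.J_le {ι : Type} {P : ι → List Bool → Oracle → Prop} {G : Oracle}
    (g : Gen P G) {m n : ℕ} (h : m ≤ n) : (g.p m).J ≤ (g.p n).J := by
  induction n, h using Nat.le_induction with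
  | base => exact le_rfl
  | succ n _ ih => exact ih.trans (g.J_mono n)

theorem main : ∃ X : Oracle, (∀ A ∈ NPo X, Tally A → A ∈ Po X) ∧
    (∃ K ∈ coNPo X, (∀ A ∈ coNPo X, ReducibleRel X A K) ∧ ∃ h, IsPOptimalRel X K h) ∧
    ¬ ∃ L ∈ NPo X ∩ coNPo X, ∀ A ∈ NPo X ∩ coNPo X, ReducibleRel X A L := by
  obtain ⟨act, hs, hD⟩ := exists_act T9Th
  choose D hD using hD
  obtain ⟨G, ⟨g⟩⟩ := exists_gen (T9P act) (T9_local hs)
  have hC : Hat act G (hat act G) := hat_spec hs G
  refine ⟨Xo act (hat act G), fun A hA hT => tally_P (hD (.inl ())) hC A hA hT,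
    ⟨(Kc act (hat act G))ᶜ, ?_, fun A hA => ?_,
      popt hs (hD (.inr (.inr (.inl ())))) (hD (.inr (.inl ()))) hC⟩, ?_⟩
  · show (Kc act (hat act G))ᶜᶜ ∈ NPo _
    rw [compl_compl]
    exact Kc_NP hs (hD (.inr (.inl ()))) _
  · obtain ⟨f, hf⟩ := Kc_hard act (hat act G) Aᶜ hA
    refine ⟨f, fun x => ?_⟩
    have h1 := hf x
    have h2 : A x = !(Aᶜ x) := by
      show A x = !(!(A x))
      rw [Bool.not_not]
    rw [h2, h1]
    rfl
  · rintro ⟨L, ⟨⟨p₁, M₁, h₁⟩, ⟨p₀, M₀, h₀⟩⟩, hL⟩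
    set e : Ver × Ver := ((M₁, p₁), (M₀, p₀)) with he
    have hacc1 : ∀ x, Acc act e.1 x (hat act G) ↔ L x = true := fun x => (h₁ x).symm
    have hacc0 : ∀ x, Acc act e.2 x (hat act G) ↔ ¬ L x = true := fun x => by
      rw [← compl_true L x]
      exact (h₀ x).symm
    have hgood : ∀ x, T9P act (.inl e) x G := fun x => by
      show Acc act e.1 x (hat act G) ↔ ¬ Acc act e.2 x (hat act G)
      rw [hacc1, hacc0, not_not]
    obtain ⟨k, hk⟩ := g.force _ hgood
    set i := (g.p k).m with hi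
    set J₀ := (g.p (i + 1)).J with hJ₀
    have hT : tl i J₀ G ∈ NPo (Xo act (hat act G)) ∩ coNPo (Xo act (hat act G)) := by
      refine tl_mem (D := fun b => D (.inr (.inr (.inr (i, J₀, b)))))
        (fun b => hD (.inr (.inr (.inr (i, J₀, b))))) hC fun j hj hf => ?_
      refine (g.comp (i + 1)).2 j hj ?_
      have := g.m_le (i + 1)
      omega
    obtain ⟨f, hf⟩ := hL _ hT
    have hred : ∀ x, T9P act (.inr (f, i, J₀, e)) x G := fun x => by
      refine ⟨fun h => ?_, fun h => ?_⟩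
      · rw [hacc1, ← hf x]; exact h
      · rw [hacc0, ← hf x, h]; simp
    obtain ⟨k', hk'⟩ := g.force _ hred
    exact clash hs (c := g.p k) (c' := g.p (max k k'))
      (fun G' h => g.anti_le (le_max_left _ _) G' h) (g.J_le (le_max_left _ _))
      (g.comp (max k k')) (le_of_eq hi.symm) J₀ e hk f
      (fun G' h => hk' G' (g.anti_le (le_max_right _ _) G' h))

end Pool.Agent.PudTal
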